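import Pool.Agent.Q105.Poly.Small

/-!
# Classification of the graphs with an isolated vertex whose adjacency form has small spread
-/

namespace Pool.Agent.Q105.Poly

open Finset

variable {n : ℕ}

/-! ### Finite checks -/

/-- Sum of six integers. -/
def s6 (f : Fin 6 → ℤ) : ℤ := f 0 + f 1 + f 2 + f 3 + f 4 + f 5

theorem s6_eq (f : Fin 6 → ℤ) : s6 f = ∑ i, f i := by
  rw [Fin.sum_univ_six, s6]

/-- Bilinear form on six vertices. -/
def b6 (g : Fin 6 → Fin 6 → Bool) (u w : Fin 6 → ℤ) : ℤ :=
  s6 fun i => s6 fun j => if g i j then u i * w j else 0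

theorem b6_eq (g : Fin 6 → Fin 6 → Bool) (u w : Fin 6 → ℤ) : b6 g u w = bf g u w := by
  rw [b6, bf, s6_eq]
  refine Finset.sum_congr rfl fun i _ => ?_
  rw [s6_eq]

/-- The certificate check. -/
def check6 (g : Fin 6 → Fin 6 → Bool) (u w : Fin 6 → ℤ) : Bool :=
  decide (s6 u = 0 ∧ s6 w = 0 ∧ s6 (fun i => u i * w i) = 0 ∧ 0 < s6 (fun i => u i * u i) ∧
    0 < s6 (fun i => w i * w i) ∧
    4 * (s6 (fun i => u i * u i)) ^ 2 * (s6 (fun i => w i * w i)) ^ 2 ≤
      (b6 g u u * s6 (fun i => w i * w i) - b6 g w w * s6 (fun i => u i * u i)) ^ 2 +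
        4 * (b6 g u w) ^ 2 * s6 (fun i => u i * u i) * s6 (fun i => w i * w i))

/-- The adjacency table: vertex 0 is isolated, vertex 1 is joined to 2 and 3. -/
def adj6 (a b e12 e13 e14 e23 e24 e34 : Bool) : Matrix (Fin 6) (Fin 6) Bool :=
  !![false, false, false, false, false, false;
     false, false, true, true, a, b;
     false, true, false, e12, e13, e14;
     false, true, e12, false, e23, e24;
     false, a, e13, e23, false, e34;
     false, b, e14, e24, e34, false]

/-- The list of certificates. -/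
def certs : List ((Fin 6 → ℤ) × (Fin 6 → ℤ)) :=
  [(![2, 0, -1, -1, 0, 0], ![1, -2, 1, 1, -1, 0]),
   (![2, 0, -1, 0, -1, 0], ![1, -2, 1, -1, 1, 0]),
   (![2, 0, 0, -1, -1, 0], ![1, -2, -1, 1, 1, 0]),
   (![1, -1, 0, 0, 0, 0], ![2, 2, -1, -1, -1, -1]),
   (![2, 0, -1, -1, 0, 0], ![1, -2, 1, 1, 0, -1]),
   (![2, -2, -1, -1, 2, 0], ![1, 2, -1, -1, 0, -1]),
   (![1, -2, 0, 0, 0, 1], ![1, 1, -1, -1, -1, 1]),
   (![1, 1, -1, 1, -1, -1], ![0, 1, 0, -1, 0, 0]),
   (![1, 1, 1, -1, -1, -1], ![0, 1, -1, 0, 0, 0]),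
   (![2, 0, -1, 0, 0, -1], ![1, -2, 1, -1, 0, 1]),
   (![2, 0, 0, -1, 0, -1], ![1, -2, -1, 1, 0, 1]),
   (![1, -1, -1, -1, 1, 1], ![0, 2, -1, -1, 0, 0]),
   (![1, 1, -2, 1, 1, -2], ![0, 1, 0, -1, 0, 0]),
   (![1, 1, 1, -2, 1, -2], ![0, 1, -1, 0, 0, 0]),
   (![2, -1, -1, -1, -1, 2], ![1, 2, -2, -1, 1, -1]),
   (![1, -1, -1, -1, 2, 0], ![1, 2, -2, -1, -1, 1]),
   (![1, -1, -1, 0, 0, 1], ![1, 1, 1, -2, -2, 1]),
   (![1, -1, -1, 0, 1, 0], ![1, 1, 1, -2, 1, -2]),
   (![1, 0, 0, 0, -1, 0], ![1, -2, -1, -1, 1, 2])]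

theorem fin6 : ∀ a b e12 e13 e14 e23 e24 e34 : Bool,
    ((a || (!e13 && !e23 && !e34)) && (b || (!e14 && !e24 && !e34)) &&
      !(a && b && e12 && e13 && e14 && e23 && e24 && e34)) = true →
    (certs.any fun p => check6 (adj6 a b e12 e13 e14 e23 e24 e34) p.1 p.2) = true := by
  decide +kernel

/-- The adjacency table on five vertices: vertex 0 is isolated, vertex 1 is joined to 2 and 3. -/
def adj5 (a e12 e13 e23 : Bool) : Matrix (Fin 5) (Fin 5) Bool :=
  !![false, false, false, false, false;
     false, false, true, true, a;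
     false, true, false, e12, e13;
     false, true, e12, false, e23;
     false, a, e13, e23, false]

/-- The number of ordered adjacent pairs. -/
def cnt {k : ℕ} (g : Fin k → Fin k → Bool) : ℤ := ∑ i, ∑ j, (if g i j then 1 else 0)

/-- The certificate check in general. -/
def check {k : ℕ} (g : Fin k → Fin k → Bool) (u w : Fin k → ℤ) : Bool :=
  decide (∑ i, u i = 0 ∧ ∑ i, w i = 0 ∧ ∑ i, u i * w i = 0 ∧ 0 < ∑ i, u i * u i ∧
    0 < ∑ i, w i * w i ∧
    4 * (∑ i, u i * u i) ^ 2 * (∑ i, w i * w i) ^ 2 ≤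
      (bf g u u * (∑ i, w i * w i) - bf g w w * (∑ i, u i * u i)) ^ 2 +
        4 * (bf g u w) ^ 2 * (∑ i, u i * u i) * (∑ i, w i * w i))

theorem fin5 : ∀ a e12 e13 e23 : Bool, ((a || (!e13 && !e23)) &&
    decide ((5 : ℤ) ∣ cnt (adj5 a e12 e13 e23))) = true →
    ([(![4, -1, -1, -1, -1], ![0, 1, 1, -1, -1]), (![4, -1, -1, -1, -1], ![0, 1, -1, 1, -1]),
      (![4, -1, -1, -1, -1], ![0, 1, -1, -1, 1])].any fun p : (Fin 5 → ℤ) × (Fin 5 → ℤ) =>
        check (adj5 a e12 e13 e23) p.1 p.2) = true := by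
  decide +kernel

/-- The adjacency table for the four-vertex condition. -/
def adj4 (p q : Bool) : Matrix (Fin 4) (Fin 4) Bool :=
  !![false, true, false, p;
     true, false, q, false;
     false, q, false, true;
     p, false, true, false]

theorem fin4 : ∀ p q : Bool, check (adj4 p q) ![1, 1, -1, -1] ![1, -1, 1, -1] = true := by
  decide +kernel

/-! ### Soundness -/

theorem Small.no_check {G : SimpleGraph (Fin n)} [DecidableRel G.Adj] (hG : Small G) {k : ℕ}
    {φ : Fin k → Fin n} (hφ : Function.Injective φ) (g : Fin k → Fin k → Bool)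
    (hg : ∀ i j, g i j = true ↔ G.Adj (φ i) (φ j)) (u w : Fin k → ℤ) (h : check g u w = true) :
    False := by
  rw [check, decide_eq_true_eq] at h
  obtain ⟨h1, h2, h3, h4, h5, h6⟩ := h
  exact hG.no_cert hφ g hg u w h1 h2 h3 h4 h5 h6

theorem check6_eq (g : Fin 6 → Fin 6 → Bool) (u w : Fin 6 → ℤ) : check6 g u w = check g u w := by
  rw [check6, check]
  simp only [s6_eq, b6_eq]

theorem hg_of {G : SimpleGraph (Fin n)} {k : ℕ} (φ : Fin k → Fin n) (g : Fin k → Fin k → Bool)
    (hirr : ∀ i, g i i = false) (hsym : ∀ i j, g i j = g j i)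
    (h : ∀ i j, i < j → (g i j = true ↔ G.Adj (φ i) (φ j))) (i j : Fin k) :
    g i j = true ↔ G.Adj (φ i) (φ j) := by
  rcases lt_trichotomy i j with h1 | h1 | h1
  · exact h i j h1
  · subst h1
    rw [hirr]
    constructor
    · intro h2
      exact absurd h2 (by decide)
    · intro h2
      exact absurd h2 (G.irrefl)
  · rw [hsym, h j i h1, G.adj_comm]

/-- The four-vertex condition. -/
theorem Small.four {G : SimpleGraph (Fin n)} [DecidableRel G.Adj] (hG : Small G) {i j k l : Fin n}
    (hik : i ≠ k) (hjl : j ≠ l) (hil : i ≠ l) (hjk : j ≠ k)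
    (h1 : G.Adj i j) (h2 : G.Adj k l) (h3 : ¬ G.Adj i k) (h4 : ¬ G.Adj j l) : False := by
  have hinj : Function.Injective ![i, j, k, l] := by
    intro a b hab
    have hij := h1.ne
    have hkl := h2.ne
    fin_cases a <;> fin_cases b <;> simp_all
  refine hG.no_check hinj (adj4 (decide (G.Adj i l)) (decide (G.Adj j k)))
    (hg_of _ _ ?_ ?_ ?_) _ _ (fin4 _ _)
  · intro a
    fin_cases a <;> rfl
  · intro a b
    fin_cases a <;> fin_cases b <;> rfl
  · intro a b hab
    fin_cases a <;> fin_cases b <;> simp [adj4, h1, h2, h3, h4] at hab ⊢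

/-- A vertex of maximum degree is joined to every other non-isolated vertex. -/
theorem Small.max_adj {G : SimpleGraph (Fin n)} [DecidableRel G.Adj] (hG : Small G) {c : Fin n}
    (hc : ∀ w, G.degree w ≤ G.degree c) {y w : Fin n} (hyc : y ≠ c) (hyw : G.Adj y w) :
    G.Adj c y := by
  by_contra hcy
  have hwc : w ≠ c := by
    rintro rfl
    exact hcy hyw.symm
  have h1 : ∃ x, G.Adj c x ∧ ¬ G.Adj w x ∧ x ≠ w := by
    by_contra hno
    push Not at hno
    have hlt : G.degree c < G.degree w := by
      by_cases hcw : G.Adj c w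
      · have h2 : (G.neighborFinset c).erase w ⊆ ((G.neighborFinset w).erase y).erase c := by
          intro x hx
          rw [Finset.mem_erase, SimpleGraph.mem_neighborFinset] at hx
          rw [Finset.mem_erase, Finset.mem_erase, SimpleGraph.mem_neighborFinset]
          refine ⟨hx.2.ne.symm, ?_, ?_⟩
          · rintro rfl
            exact hcy hx.2
          · by_contra hwx
            exact hx.1 (hno x hx.2 hwx)
        have h3 := Finset.card_le_card h2
        have e1 : c ∈ (G.neighborFinset w).erase y := by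
          rw [Finset.mem_erase, SimpleGraph.mem_neighborFinset]
          exact ⟨Ne.symm hyc, hcw.symm⟩
        have e2 : y ∈ G.neighborFinset w := by
          rw [SimpleGraph.mem_neighborFinset]; exact hyw.symm
        have e3 : w ∈ G.neighborFinset c := by
          rw [SimpleGraph.mem_neighborFinset]; exact hcw
        rw [Finset.card_erase_of_mem e3, Finset.card_erase_of_mem e1,
          Finset.card_erase_of_mem e2, SimpleGraph.card_neighborFinset_eq_degree,
          SimpleGraph.card_neighborFinset_eq_degree] at h3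
        have e4 : 2 ≤ G.degree w := by
          rw [← SimpleGraph.card_neighborFinset_eq_degree]
          have := Finset.card_pos.2 ⟨c, e1⟩
          rw [Finset.card_erase_of_mem e2] at this
          omega
        have e5 : 1 ≤ G.degree c := by
          rw [← SimpleGraph.card_neighborFinset_eq_degree]
          exact Finset.card_pos.2 ⟨w, e3⟩
        omega
      · have h2 : G.neighborFinset c ⊆ (G.neighborFinset w).erase y := by
          intro x hx
          rw [SimpleGraph.mem_neighborFinset] at hx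
          rw [Finset.mem_erase, SimpleGraph.mem_neighborFinset]
          constructor
          · rintro rfl
            exact hcy hx
          · by_contra hwx
            have := hno x hx hwx
            subst this
            exact hcw hx
        have h3 := Finset.card_le_card h2
        have e2 : y ∈ G.neighborFinset w := by
          rw [SimpleGraph.mem_neighborFinset]; exact hyw.symm
        rw [Finset.card_erase_of_mem e2, SimpleGraph.card_neighborFinset_eq_degree,
          SimpleGraph.card_neighborFinset_eq_degree] at h3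
        have e4 : 1 ≤ G.degree w := by
          rw [← SimpleGraph.card_neighborFinset_eq_degree]
          exact Finset.card_pos.2 ⟨y, e2⟩
        omega
    exact absurd (hc w) (not_le.2 hlt)
  obtain ⟨x, hcx, hwx, hxw⟩ := h1
  have hxy : x ≠ y := by
    rintro rfl
    exact hcy hcx
  exact hG.four (Ne.symm hyc) hxw (Ne.symm hwc) hxy hcx hyw hcy (fun h => hwx h.symm)

end Pool.Agent.Q105.Poly
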