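import Mathlib

/-!
# Restricted numerical ranges and polygonal digraphs
-/

namespace Pool.Agent.Q105.Poly

open Matrix

variable {n : ℕ}

/-- The out-degree of the vertex `i`: the number of arcs `(i, j)`. -/
def outDeg (A : Fin n → Fin n → Prop) [DecidableRel A] (i : Fin n) : ℕ :=
  (Finset.univ.filter fun j => A i j).card

/-- The in-degree of the vertex `i`: the number of arcs `(j, i)`. -/
def inDeg (A : Fin n → Fin n → Prop) [DecidableRel A] (i : Fin n) : ℕ :=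
  (Finset.univ.filter fun j => A j i).card

/-- The Laplacian `L = D - A` of a digraph: the diagonal matrix of out-degrees minus the adjacency
matrix. -/
def lap (A : Fin n → Fin n → Prop) [DecidableRel A] : Matrix (Fin n) (Fin n) ℤ :=
  fun i j => (if i = j then (outDeg A i : ℤ) else 0) - (if A i j then 1 else 0)

/-- The restricted numerical range: all values `x^* L x` for complex unit vectors `x` orthogonal to
the all-ones vector. -/
def Wr (L : Matrix (Fin n) (Fin n) ℤ) : Set ℂ :=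
  {z | ∃ x : Fin n → ℂ, ∑ i, x i = 0 ∧ ∑ i, ‖x i‖ ^ 2 = 1 ∧
    z = star x ⬝ᵥ (L.map (Int.cast : ℤ → ℂ) *ᵥ x)}

/-- All values `x^T L x` for real unit vectors `x` orthogonal to the all-ones vector. -/
def realValues (L : Matrix (Fin n) (Fin n) ℤ) : Set ℝ :=
  {t | ∃ x : Fin n → ℝ, ∑ i, x i = 0 ∧ ∑ i, x i ^ 2 = 1 ∧
    t = x ⬝ᵥ (L.map (Int.cast : ℤ → ℝ) *ᵥ x)}

/-- A restrictor matrix: its `n - 1` columns are orthonormal and orthogonal to the all-ones vector,
so they form an orthonormal basis of the orthogonal complement of the all-ones vector. -/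
def IsRestrictor (Q : Matrix (Fin n) (Fin (n - 1)) ℂ) : Prop :=
  Qᴴ * Q = 1 ∧ ∀ j, ∑ i, Q i j = 0

/-! ### General facts -/

theorem re_form (L : Matrix (Fin n) (Fin n) ℤ) (x : Fin n → ℂ) :
    (star x ⬝ᵥ (L.map (Int.cast : ℤ → ℂ) *ᵥ x)).re =
      ∑ i, ∑ j, (L i j : ℝ) * ((x i).re * (x j).re + (x i).im * (x j).im) := by
  rw [dotProduct, Complex.re_sum]
  refine Finset.sum_congr rfl fun i _ => ?_
  rw [mulVec, dotProduct, Finset.mul_sum, Complex.re_sum]
  refine Finset.sum_congr rfl fun j _ => ?_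
  simp [Complex.mul_re, Complex.mul_im]
  ring

theorem im_form (L : Matrix (Fin n) (Fin n) ℤ) (x : Fin n → ℂ) :
    (star x ⬝ᵥ (L.map (Int.cast : ℤ → ℂ) *ᵥ x)).im =
      ∑ i, ∑ j, (L i j : ℝ) * ((x i).re * (x j).im - (x i).im * (x j).re) := by
  rw [dotProduct, Complex.im_sum]
  refine Finset.sum_congr rfl fun i _ => ?_
  rw [mulVec, dotProduct, Finset.mul_sum, Complex.im_sum]
  refine Finset.sum_congr rfl fun j _ => ?_
  simp [Complex.mul_re, Complex.mul_im]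
  ring

/-- Convex combinations of normal eigenvalues lie in the restricted numerical range. -/
theorem comb {m : ℕ} (L : Matrix (Fin n) (Fin n) ℤ) (v : Fin m → Fin n → ℂ) (p : Fin m → ℂ)
    (h1 : ∀ j k, star (v j) ⬝ᵥ v k = if j = k then 1 else 0)
    (h2 : ∀ k, L.map (Int.cast : ℤ → ℂ) *ᵥ v k = p k • v k)
    (h3 : ∀ k, ∑ i, v k i = 0) (w : Fin m → ℝ) (hw : ∀ k, 0 ≤ w k) (hw1 : ∑ k, w k = 1) :
    (∑ k, (w k : ℂ) * p k) ∈ Wr L := by
  have hs : ∀ k, ((Real.sqrt (w k) : ℝ) : ℂ) * (Real.sqrt (w k) : ℝ) = (w k : ℂ) := fun k => by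
    rw [← Complex.ofReal_mul, Real.mul_self_sqrt (hw k)]
  have hgen : ∀ c : Fin m → ℂ, star (∑ k, ((Real.sqrt (w k) : ℝ) : ℂ) • v k) ⬝ᵥ
      (∑ k, (((Real.sqrt (w k) : ℝ) : ℂ) * c k) • v k) = ∑ k, (w k : ℂ) * c k := by
    intro c
    rw [star_sum, sum_dotProduct]
    refine Finset.sum_congr rfl fun j _ => ?_
    rw [dotProduct_sum, Finset.sum_eq_single j]
    · rw [star_smul, smul_dotProduct, dotProduct_smul, h1, if_pos rfl, ← hs j]
      simp only [Complex.star_def, Complex.conj_ofReal, smul_eq_mul, mul_one]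
      ring
    · intro k _ hk
      rw [star_smul, smul_dotProduct, dotProduct_smul, h1, if_neg (Ne.symm hk)]
      simp
    · intro h
      exact absurd (Finset.mem_univ j) h
  refine ⟨∑ k, ((Real.sqrt (w k) : ℝ) : ℂ) • v k, ?_, ?_, ?_⟩
  · simp only [Finset.sum_apply, Pi.smul_apply, smul_eq_mul]
    rw [Finset.sum_comm]
    refine Finset.sum_eq_zero fun k _ => ?_
    rw [← Finset.mul_sum, h3, mul_zero]
  · have h4 := hgen (fun _ => 1)
    simp only [mul_one] at h4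
    have h5 : star (∑ k, ((Real.sqrt (w k) : ℝ) : ℂ) • v k) ⬝ᵥ
        (∑ k, ((Real.sqrt (w k) : ℝ) : ℂ) • v k) =
        ((∑ i, ‖(∑ k, ((Real.sqrt (w k) : ℝ) : ℂ) • v k) i‖ ^ 2 : ℝ) : ℂ) := by
      rw [dotProduct, Complex.ofReal_sum]
      refine Finset.sum_congr rfl fun i _ => ?_
      rw [Pi.star_apply, Complex.star_def, Complex.conj_mul']
      norm_cast
    rw [h5, ← Complex.ofReal_sum, hw1] at h4
    exact_mod_cast h4
  · have h6 : L.map (Int.cast : ℤ → ℂ) *ᵥ (∑ k, ((Real.sqrt (w k) : ℝ) : ℂ) • v k) =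
        ∑ k, (((Real.sqrt (w k) : ℝ) : ℂ) * p k) • v k := by
      rw [mulVec_sum]
      refine Finset.sum_congr rfl fun k _ => ?_
      rw [mulVec_smul, h2, smul_smul]
    rw [h6, hgen]

/-- `Q Qᴴ` is the projection onto the orthogonal complement of the all-ones vector. -/
theorem restrictor_mul (hn : 0 < n) {Q : Matrix (Fin n) (Fin (n - 1)) ℂ} (hQ : IsRestrictor Q)
    (x : Fin n → ℂ) (hx : ∑ i, x i = 0) : Q *ᵥ (Qᴴ *ᵥ x) = x := by
  have hn' : (n : ℂ) ≠ 0 := by exact_mod_cast hn.ne'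
  set c : ℂ := ((Real.sqrt n : ℝ) : ℂ)⁻¹ with hc
  have hcc : c * c * n = 1 := by
    rw [hc, ← mul_inv, ← Complex.ofReal_mul, Real.mul_self_sqrt (Nat.cast_nonneg n)]
    rw [Complex.ofReal_natCast]
    exact inv_mul_cancel₀ hn'
  have hcs : star c = c := by
    rw [hc, star_inv₀, Complex.star_def, Complex.conj_ofReal]
  set E : Matrix (Fin n) (Fin 1) ℂ := Matrix.of fun _ _ => c with hE
  set U : Matrix (Fin n) (Fin (n - 1) ⊕ Fin 1) ℂ := Matrix.fromCols Q E with hU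
  have hUU : Uᴴ * U = 1 := by
    rw [hU, Matrix.conjTranspose_fromCols_eq_fromRows_conjTranspose, Matrix.fromRows_mul_fromCols]
    rw [hQ.1]
    have e1 : Qᴴ * E = 0 := by
      ext j k
      rw [Matrix.mul_apply, Matrix.zero_apply]
      simp only [Matrix.conjTranspose_apply, hE, Matrix.of_apply]
      rw [← Finset.sum_mul, ← star_sum, hQ.2 j, star_zero, zero_mul]
    have e2 : Eᴴ * Q = 0 := by
      rw [← Matrix.conjTranspose_conjTranspose Q, ← Matrix.conjTranspose_mul, e1,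
        Matrix.conjTranspose_zero]
    have e3 : Eᴴ * E = 1 := by
      ext j k
      rw [Matrix.mul_apply]
      simp only [Matrix.conjTranspose_apply, hE, Matrix.of_apply, Finset.sum_const,
        Finset.card_univ, Fintype.card_fin, nsmul_eq_mul, hcs]
      rw [Subsingleton.elim j k, Matrix.one_apply_eq, ← hcc]
      ring
    rw [e1, e2, e3, Matrix.fromBlocks_one]
  have hcard : Fintype.card (Fin (n - 1) ⊕ Fin 1) = Fintype.card (Fin n) := by
    rw [Fintype.card_sum, Fintype.card_fin, Fintype.card_fin, Fintype.card_fin]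
    omega
  have hUU' : U * Uᴴ = 1 := (Matrix.mul_eq_one_comm_of_card_eq _ _ _ hcard).1 hUU
  rw [hU, Matrix.conjTranspose_fromCols_eq_fromRows_conjTranspose, Matrix.fromCols_mul_fromRows]
    at hUU'
  have h1 : Q *ᵥ (Qᴴ *ᵥ x) + E *ᵥ (Eᴴ *ᵥ x) = x := by
    rw [Matrix.mulVec_mulVec, Matrix.mulVec_mulVec, ← Matrix.add_mulVec, hUU', Matrix.one_mulVec]
  have h2 : Eᴴ *ᵥ x = 0 := by
    ext j
    rw [Matrix.mulVec, dotProduct]
    simp only [Matrix.conjTranspose_apply, hE, Matrix.of_apply, Pi.zero_apply]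
    rw [← Finset.mul_sum, hx, mul_zero]
  rw [h2, Matrix.mulVec_zero, add_zero] at h1
  exact h1

/-- Eigenvalues of the compression lie in the restricted numerical range. -/
theorem spectrum_subset {Q : Matrix (Fin n) (Fin (n - 1)) ℂ} (hQ : IsRestrictor Q)
    (L : Matrix (Fin n) (Fin n) ℤ) :
    spectrum ℂ (Qᴴ * L.map (Int.cast : ℤ → ℂ) * Q) ⊆ Wr L := by
  intro μ hμ
  rw [← Matrix.spectrum_toLin', ← Module.End.hasEigenvalue_iff_mem_spectrum] at hμ
  obtain ⟨y, hy⟩ := hμ.exists_hasEigenvector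
  have hy0 := hy.2
  have hy1 : (Qᴴ * L.map (Int.cast : ℤ → ℂ) * Q) *ᵥ y = μ • y := by
    have := hy.apply_eq_smul
    rwa [Matrix.toLin'_apply] at this
  have hnn : ∀ z : Fin (n - 1) → ℂ, star z ⬝ᵥ z = ((∑ i, ‖z i‖ ^ 2 : ℝ) : ℂ) := by
    intro z
    rw [dotProduct, Complex.ofReal_sum]
    refine Finset.sum_congr rfl fun i _ => ?_
    rw [Pi.star_apply, Complex.star_def, Complex.conj_mul']
    norm_cast
  have hnn' : ∀ z : Fin n → ℂ, star z ⬝ᵥ z = ((∑ i, ‖z i‖ ^ 2 : ℝ) : ℂ) := by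
    intro z
    rw [dotProduct, Complex.ofReal_sum]
    refine Finset.sum_congr rfl fun i _ => ?_
    rw [Pi.star_apply, Complex.star_def, Complex.conj_mul']
    norm_cast
  have hpos : 0 < ∑ i, ‖y i‖ ^ 2 := by
    refine lt_of_le_of_ne (Finset.sum_nonneg fun i _ => by positivity) fun h => hy0 ?_
    ext i
    have := (Finset.sum_eq_zero_iff_of_nonneg (fun i _ => by positivity)).1 h.symm i
      (Finset.mem_univ i)
    rw [Pi.zero_apply]
    exact norm_eq_zero.1 (pow_eq_zero_iff (two_ne_zero) |>.1 this)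
  set r : ℝ := (Real.sqrt (∑ i, ‖y i‖ ^ 2))⁻¹ with hr
  have hrr : r * r * (∑ i, ‖y i‖ ^ 2) = 1 := by
    rw [hr, ← mul_inv, Real.mul_self_sqrt hpos.le, inv_mul_cancel₀ hpos.ne']
  have hstar : star (((r : ℝ) : ℂ) • (Q *ᵥ y)) = ((r : ℝ) : ℂ) • star (Q *ᵥ y) := by
    rw [star_smul, Complex.star_def, Complex.conj_ofReal]
  have hQy : star (Q *ᵥ y) ⬝ᵥ (Q *ᵥ y) = star y ⬝ᵥ y := by
    rw [Matrix.star_mulVec, ← Matrix.dotProduct_mulVec, Matrix.mulVec_mulVec, hQ.1,
      Matrix.one_mulVec]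
  refine ⟨((r : ℝ) : ℂ) • (Q *ᵥ y), ?_, ?_, ?_⟩
  · simp only [Pi.smul_apply, smul_eq_mul, Matrix.mulVec, dotProduct]
    rw [← Finset.mul_sum, Finset.sum_comm]
    simp only [← Finset.sum_mul]
    simp only [hQ.2, zero_mul, Finset.sum_const_zero, mul_zero]
  · have h4 : star (((r : ℝ) : ℂ) • (Q *ᵥ y)) ⬝ᵥ (((r : ℝ) : ℂ) • (Q *ᵥ y)) = 1 := by
      rw [hstar, smul_dotProduct, dotProduct_smul, hQy, hnn, smul_eq_mul, smul_eq_mul, ← mul_assoc]
      exact_mod_cast hrr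
    rw [hnn'] at h4
    exact_mod_cast h4
  · rw [hstar, smul_dotProduct, Matrix.mulVec_smul, dotProduct_smul, smul_eq_mul, smul_eq_mul,
      Matrix.star_mulVec, ← Matrix.dotProduct_mulVec, Matrix.mulVec_mulVec, Matrix.mulVec_mulVec,
      hy1, dotProduct_smul, hnn, smul_eq_mul]
    have : (((r : ℝ) : ℂ) * (((r : ℝ) : ℂ) * (μ * ((∑ i, ‖y i‖ ^ 2 : ℝ) : ℂ)))) =
        μ * ((r * r * (∑ i, ‖y i‖ ^ 2) : ℝ) : ℂ) := by
      push_cast
      ring
    rw [this, hrr, Complex.ofReal_one, mul_one]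

/-- Eigenvectors orthogonal to the all-ones vector give eigenvalues of the compression. -/
theorem mem_spectrum (hn : 0 < n) {Q : Matrix (Fin n) (Fin (n - 1)) ℂ} (hQ : IsRestrictor Q)
    (L : Matrix (Fin n) (Fin n) ℤ) (x : Fin n → ℂ) (μ : ℂ) (hx : ∑ i, x i = 0) (hx0 : x ≠ 0)
    (h : L.map (Int.cast : ℤ → ℂ) *ᵥ x = μ • x) :
    μ ∈ spectrum ℂ (Qᴴ * L.map (Int.cast : ℤ → ℂ) * Q) := by
  have h1 := restrictor_mul hn hQ x hx
  rw [← Matrix.spectrum_toLin', ← Module.End.hasEigenvalue_iff_mem_spectrum]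
  apply Module.End.hasEigenvalue_of_hasEigenvector (x := Qᴴ *ᵥ x)
  rw [Module.End.hasEigenvector_iff, Module.End.mem_eigenspace_iff, Matrix.toLin'_apply]
  refine ⟨?_, fun h0 => hx0 ?_⟩
  · rw [← Matrix.mulVec_mulVec, h1, ← Matrix.mulVec_mulVec, h, Matrix.mulVec_smul]
  · rw [← h1, h0, Matrix.mulVec_zero]

end Pool.Agent.Q105.Poly
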