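import Pool.Agent.Q105.Poly.Form

/-!
# The leftmost points of the restricted numerical range of a polygonal digraph
-/

namespace Pool.Agent.Q105.Poly

open Matrix
open scoped ComplexOrder

variable {n : ℕ}

/-- Real part of the form as two real forms. -/
theorem re_form' (L : Matrix (Fin n) (Fin n) ℤ) (x : Fin n → ℂ) :
    (star x ⬝ᵥ (L.map (Int.cast : ℤ → ℂ) *ᵥ x)).re =
      form L (fun i => (x i).re) + form L (fun i => (x i).im) := by
  rw [re_form, form, form, ← Finset.sum_add_distrib]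
  refine Finset.sum_congr rfl fun i _ => ?_
  rw [← Finset.sum_add_distrib]
  refine Finset.sum_congr rfl fun j _ => ?_
  ring

theorem star_dot_self (z : Fin n → ℂ) :
    star z ⬝ᵥ z = ((∑ i, (z i).re ^ 2 + ∑ i, (z i).im ^ 2 : ℝ) : ℂ) := by
  rw [dotProduct, ← Finset.sum_add_distrib, Complex.ofReal_sum]
  refine Finset.sum_congr rfl fun i _ => ?_
  rw [Pi.star_apply, Complex.star_def, Complex.conj_mul', ← Complex.ofReal_pow,
    ← Complex.normSq_eq_norm_sq, Complex.normSq_apply]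
  congr 1
  ring

theorem re_lower (L : Matrix (Fin n) (Fin n) ℤ) (x : Fin n → ℂ) (hx : ∑ i, x i = 0) :
    sInf (realValues L) * (∑ i, (x i).re ^ 2 + ∑ i, (x i).im ^ 2) ≤
      (star x ⬝ᵥ (L.map (Int.cast : ℤ → ℂ) *ᵥ x)).re := by
  rw [re_form']
  have h1 := (form_bounds L (fun i => (x i).re) (by rw [← Complex.re_sum, hx, Complex.zero_re])).1
  have h2 := (form_bounds L (fun i => (x i).im) (by rw [← Complex.im_sum, hx, Complex.zero_im])).1
  linarith

/-- A real value is a point of the restricted numerical range. -/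
theorem real_mem_Wr (L : Matrix (Fin n) (Fin n) ℤ) {t : ℝ} (ht : t ∈ realValues L) :
    (t : ℂ) ∈ Wr L := by
  obtain ⟨x, h1, h2, h3⟩ := ht
  refine ⟨fun i => (x i : ℂ), ?_, ?_, ?_⟩
  · rw [← Complex.ofReal_sum, h1, Complex.ofReal_zero]
  · rw [← h2]
    refine Finset.sum_congr rfl fun i _ => ?_
    rw [Complex.norm_real, Real.norm_eq_abs, sq_abs]
  · rw [h3, dotProduct, dotProduct, Complex.ofReal_sum]
    refine Finset.sum_congr rfl fun i _ => ?_
    rw [mulVec, mulVec, dotProduct, dotProduct, Complex.ofReal_mul, Complex.ofReal_sum,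
      Pi.star_apply, Complex.star_def, Complex.conj_ofReal]
    refine congrArg (fun w => (x i : ℂ) * w) ?_
    refine Finset.sum_congr rfl fun j _ => ?_
    rw [Matrix.map_apply, Matrix.map_apply, Complex.ofReal_mul, Complex.ofReal_intCast]

/-- **The leftmost points**: if the restricted numerical range is the convex hull of the
eigenvalues of the compression, then some eigenvalue on the left edge is a normal eigenvalue. -/
theorem end_vector (hn : 2 ≤ n) (L : Matrix (Fin n) (Fin n) ℤ)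
    {Q : Matrix (Fin n) (Fin (n - 1)) ℂ} (hQ : IsRestrictor Q)
    (hP : Wr L = convexHull ℝ (spectrum ℂ (Qᴴ * L.map (Int.cast : ℤ → ℂ) * Q)))
    (hL : ∀ i, ∑ j, L i j = 0) (hne : (realValues L).Nonempty) :
    ∃ (x : Fin n → ℂ) (μ m : ℂ), x ≠ 0 ∧ ∑ i, x i = 0 ∧ μ.re = sInf (realValues L) ∧
      (L.map (Int.cast : ℤ → ℂ))ᴴ *ᵥ x = star μ • x ∧
      ∀ i, (L.map (Int.cast : ℤ → ℂ) *ᵥ x) i = μ * x i + m := by
  set LC : Matrix (Fin n) (Fin n) ℂ := L.map (Int.cast : ℤ → ℂ) with hLC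
  set M := Qᴴ * LC * Q with hM
  have hfin : (spectrum ℂ M).Finite := Matrix.finite_spectrum M
  have : Nonempty (Fin (n - 1)) := ⟨⟨0, by omega⟩⟩
  have hspne : (spectrum ℂ M).Nonempty :=
    spectrum.nonempty_of_isAlgClosed_of_finiteDimensional ℂ M
  obtain ⟨μ, hμ, hmin⟩ := Set.exists_min_image (spectrum ℂ M) (fun z => z.re) hfin hspne
  have h1 : ∀ z ∈ Wr L, μ.re ≤ z.re := by
    intro z hz
    rw [hP] at hz
    have hconv : Convex ℝ {z : ℂ | μ.re ≤ z.re} := by
      intro a ha b hb s t hs ht hst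
      rw [Set.mem_ofPred_eq] at ha hb ⊢
      simp only [Complex.add_re, Complex.real_smul, Complex.re_ofReal_mul]
      have : t = 1 - s := by linarith
      subst this
      nlinarith [mul_nonneg hs (sub_nonneg.2 ha), mul_nonneg ht (sub_nonneg.2 hb)]
    exact convexHull_min (fun w hw => hmin w hw) hconv hz
  have h2 : μ.re = sInf (realValues L) := by
    apply le_antisymm
    · refine le_csInf hne fun t ht => ?_
      have := h1 _ (real_mem_Wr L ht)
      rwa [Complex.ofReal_re] at this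
    · obtain ⟨x, hx0, hx1, hx2⟩ := spectrum_subset hQ L hμ
      have h3 := re_lower L x hx0
      rw [← hx2] at h3
      have h4 : ∑ i, (x i).re ^ 2 + ∑ i, (x i).im ^ 2 = 1 := by
        rw [← hx1, ← Finset.sum_add_distrib]
        refine Finset.sum_congr rfl fun i _ => ?_
        rw [← Complex.normSq_eq_norm_sq, Complex.normSq_apply]
        ring
      rw [h4, mul_one] at h3
      exact h3
  -- eigenvector of the compression
  have hμ' := hμ
  rw [← Matrix.spectrum_toLin', ← Module.End.hasEigenvalue_iff_mem_spectrum] at hμ'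
  obtain ⟨y, hy⟩ := hμ'.exists_hasEigenvector
  have hy0 := hy.2
  have hy1 : M *ᵥ y = μ • y := by
    have := hy.apply_eq_smul
    rwa [Matrix.toLin'_apply] at this
  have hQsum : ∀ w : Fin (n - 1) → ℂ, ∑ i, (Q *ᵥ w) i = 0 := by
    intro w
    simp only [Matrix.mulVec, dotProduct]
    rw [Finset.sum_comm]
    simp only [← Finset.sum_mul]
    simp only [hQ.2, zero_mul, Finset.sum_const_zero]
  have hQnorm : ∀ w : Fin (n - 1) → ℂ, star (Q *ᵥ w) ⬝ᵥ (Q *ᵥ w) = star w ⬝ᵥ w := by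
    intro w
    rw [Matrix.star_mulVec, ← Matrix.dotProduct_mulVec, Matrix.mulVec_mulVec, hQ.1,
      Matrix.one_mulVec]
  have hQM : ∀ w : Fin (n - 1) → ℂ, star w ⬝ᵥ (M *ᵥ w) = star (Q *ᵥ w) ⬝ᵥ (LC *ᵥ (Q *ᵥ w)) := by
    intro w
    rw [Matrix.star_mulVec, ← Matrix.dotProduct_mulVec, Matrix.mulVec_mulVec, Matrix.mulVec_mulVec]
  set H : Matrix (Fin (n - 1)) (Fin (n - 1)) ℂ := M + Mᴴ - (2 * (μ.re : ℂ)) • 1 with hH
  have hHform : ∀ w : Fin (n - 1) → ℂ, star w ⬝ᵥ (H *ᵥ w) =
      ((2 * ((star w ⬝ᵥ (M *ᵥ w)).re) - 2 * μ.re * (star w ⬝ᵥ w).re : ℝ) : ℂ) := by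
    intro w
    have e1 : star w ⬝ᵥ (Mᴴ *ᵥ w) = star (star w ⬝ᵥ (M *ᵥ w)) := by
      rw [Matrix.star_dotProduct, Matrix.star_mulVec, ← Matrix.dotProduct_mulVec,
        Matrix.conjTranspose_conjTranspose]
    have e2 : (((star w ⬝ᵥ w).re : ℝ) : ℂ) = star w ⬝ᵥ w := by
      rw [star_dot_self, Complex.ofReal_re]
    rw [hH, Matrix.sub_mulVec, Matrix.add_mulVec, Matrix.smul_mulVec, Matrix.one_mulVec,
      dotProduct_sub, dotProduct_add, dotProduct_smul, e1]
    rw [Complex.ofReal_sub, Complex.ofReal_mul, Complex.ofReal_mul, e2]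
    have e3 : star w ⬝ᵥ (M *ᵥ w) + star (star w ⬝ᵥ (M *ᵥ w)) =
        ((2 : ℝ) : ℂ) * (((star w ⬝ᵥ (M *ᵥ w)).re : ℝ) : ℂ) := by
      rw [Complex.star_def, Complex.add_conj]
      push_cast
      ring
    rw [e3, smul_eq_mul]
    push_cast
    ring
  have hHherm : H.IsHermitian := by
    rw [Matrix.IsHermitian, hH, Matrix.conjTranspose_sub, Matrix.conjTranspose_add,
      Matrix.conjTranspose_conjTranspose, Matrix.conjTranspose_smul, Matrix.conjTranspose_one,
      add_comm Mᴴ M]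
    have : star (2 * (μ.re : ℂ)) = 2 * (μ.re : ℂ) := by
      apply Complex.ext <;> simp
    rw [this]
  have hpsd : H.PosSemidef := by
    refine Matrix.PosSemidef.of_dotProduct_mulVec_nonneg hHherm fun w => ?_
    rw [hHform]
    rw [Complex.zero_le_real]
    have h3 := re_lower L (Q *ᵥ w) (hQsum w)
    have h4 : (star w ⬝ᵥ w).re = ∑ i, ((Q *ᵥ w) i).re ^ 2 + ∑ i, ((Q *ᵥ w) i).im ^ 2 := by
      rw [← hQnorm, star_dot_self, Complex.ofReal_re]
    rw [← hLC, ← hQM, ← h4, ← h2] at h3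
    linarith
  have hzero : H *ᵥ y = 0 := by
    rw [← hpsd.dotProduct_mulVec_zero_iff, hHform, hy1, dotProduct_smul, smul_eq_mul]
    have e2 : (star y ⬝ᵥ y) = (((star y ⬝ᵥ y).re : ℝ) : ℂ) := by
      rw [star_dot_self, Complex.ofReal_re]
    rw [e2, Complex.re_mul_ofReal, Complex.ofReal_re]
    have : 2 * (μ.re * (star y ⬝ᵥ y).re) - 2 * μ.re * (star y ⬝ᵥ y).re = 0 := by ring
    rw [this, Complex.ofReal_zero]
  have hMH : Mᴴ *ᵥ y = star μ • y := by
    rw [hH, Matrix.sub_mulVec, Matrix.add_mulVec, Matrix.smul_mulVec, Matrix.one_mulVec, hy1]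
      at hzero
    have e : Mᴴ *ᵥ y = (2 * (μ.re : ℂ)) • y - μ • y := by
      rw [sub_eq_zero] at hzero
      rw [← hzero]
      abel
    rw [e, ← sub_smul]
    congr 1
    rw [Complex.star_def]
    apply Complex.ext
    · simp
      ring
    · simp
  set x := Q *ᵥ y with hx
  have hxsum : ∑ i, x i = 0 := hQsum y
  have hx0 : x ≠ 0 := by
    intro h
    apply hy0
    have : Qᴴ *ᵥ x = y := by
      rw [hx, Matrix.mulVec_mulVec, hQ.1, Matrix.one_mulVec]
    rw [← this, h, Matrix.mulVec_zero]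
  have hQe : Qᴴ *ᵥ (fun _ => (1 : ℂ)) = 0 := by
    ext j
    rw [Matrix.mulVec, dotProduct]
    simp only [Matrix.conjTranspose_apply, mul_one, Pi.zero_apply]
    rw [← star_sum, hQ.2, star_zero]
  refine ⟨x, μ, (∑ i, (LC *ᵥ x) i) / n, hx0, hxsum, h2, ?_, ?_⟩
  · have hsum : ∑ i, (LCᴴ *ᵥ x) i = 0 := by
      simp only [Matrix.mulVec, dotProduct, Matrix.conjTranspose_apply]
      rw [Finset.sum_comm]
      refine Finset.sum_eq_zero fun j _ => ?_
      rw [← Finset.sum_mul, ← star_sum]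
      have : ∑ i, LC j i = 0 := by
        simp only [hLC, Matrix.map_apply]
        exact_mod_cast hL j
      rw [this, star_zero, zero_mul]
    have h3 := restrictor_mul (by omega) hQ _ hsum
    have h4 : Qᴴ * LCᴴ * Q = Mᴴ := by
      rw [hM, Matrix.conjTranspose_mul, Matrix.conjTranspose_mul,
        Matrix.conjTranspose_conjTranspose, Matrix.mul_assoc]
    have h5 : Qᴴ *ᵥ (LCᴴ *ᵥ x) = Mᴴ *ᵥ y := by
      rw [hx, Matrix.mulVec_mulVec, Matrix.mulVec_mulVec, h4]
    rw [← h3, h5, hMH, Matrix.mulVec_smul]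
  · have hn' : (n : ℂ) ≠ 0 := by
      have : 0 < n := by omega
      exact_mod_cast this.ne'
    set m : ℂ := (∑ i, (LC *ᵥ x) i) / n with hm
    have hsum : ∑ i, (LC *ᵥ x - m • (fun _ => (1 : ℂ)) : Fin n → ℂ) i = 0 := by
      simp only [Pi.sub_apply, Pi.smul_apply, smul_eq_mul, mul_one]
      rw [Finset.sum_sub_distrib, Finset.sum_const, Finset.card_univ, Fintype.card_fin,
        nsmul_eq_mul, hm]
      field_simp
      ring
    have h3 := restrictor_mul (by omega) hQ _ hsum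
    have h5 : Qᴴ *ᵥ (LC *ᵥ x) = μ • y := by
      rw [hx, Matrix.mulVec_mulVec, Matrix.mulVec_mulVec, ← hM, hy1]
    rw [Matrix.mulVec_sub, Matrix.mulVec_smul, hQe, smul_zero, sub_zero, h5,
      Matrix.mulVec_smul, ← hx] at h3
    intro i
    have h4 := congrFun h3 i
    simp only [Pi.sub_apply, Pi.smul_apply, smul_eq_mul, mul_one] at h4
    linear_combination -h4

end Pool.Agent.Q105.Poly
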