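import Pool.Agent.Q105.Poly.Defs

/-!
# Restrictor matrices exist
-/

namespace Pool.Agent.Q105.Poly

open Matrix

/-- For every `n ≥ 1` there is a restrictor matrix. -/
theorem exists_restrictor (n : ℕ) (hn : 0 < n) :
    ∃ Q : Matrix (Fin n) (Fin (n - 1)) ℂ, IsRestrictor Q := by
  set e : EuclideanSpace ℂ (Fin n) := WithLp.toLp 2 (fun _ => (1 : ℂ)) with he
  have he0 : e ≠ 0 := by
    intro h
    have := congrArg (fun v : EuclideanSpace ℂ (Fin n) => v ⟨0, hn⟩) h
    simp [he] at this
  have : Fact (Module.finrank ℂ (EuclideanSpace ℂ (Fin n)) = (n - 1) + 1) := ⟨by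
    rw [finrank_euclideanSpace_fin]; omega⟩
  have hf : Module.finrank ℂ (Submodule.span ℂ {e})ᗮ = n - 1 :=
    Submodule.finrank_orthogonal_span_singleton he0
  set b : OrthonormalBasis (Fin (n - 1)) ℂ (Submodule.span ℂ {e})ᗮ :=
    (stdOrthonormalBasis ℂ (Submodule.span ℂ {e})ᗮ).reindex (finCongr hf) with hb
  refine ⟨Matrix.of fun i j => ((b j : EuclideanSpace ℂ (Fin n)) i), ?_, fun j => ?_⟩
  · ext j k
    rw [Matrix.mul_apply]
    simp only [Matrix.conjTranspose_apply, Matrix.of_apply]
    have h1 := orthonormal_iff_ite.1 b.orthonormal j k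
    rw [Submodule.coe_inner, PiLp.inner_apply] at h1
    rw [Matrix.one_apply, ← h1]
    refine Finset.sum_congr rfl fun i _ => ?_
    rw [RCLike.inner_apply, Complex.star_def]
    ring
  · have h1 := (b j).2
    rw [Submodule.mem_orthogonal_singleton_iff_inner_right, PiLp.inner_apply] at h1
    rw [← h1]
    refine Finset.sum_congr rfl fun i _ => ?_
    have h2 : e.ofLp i = 1 := rfl
    rw [RCLike.inner_apply, h2]
    simp

end Pool.Agent.Q105.Poly
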