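import Pool.Agent.Q105.Poly.Exist

/-!
# The real form of the Laplacian of a digraph through the pair values
-/

namespace Pool.Agent.Q105.Poly

open Matrix Finset

variable {n : ℕ}

/-- The real form. -/
def form (L : Matrix (Fin n) (Fin n) ℤ) (x : Fin n → ℝ) : ℝ := ∑ i, ∑ j, (L i j : ℝ) * (x i * x j)

theorem form_eq (L : Matrix (Fin n) (Fin n) ℤ) (x : Fin n → ℝ) :
    x ⬝ᵥ (L.map (Int.cast : ℤ → ℝ) *ᵥ x) = form L x := by
  rw [dotProduct, form]
  refine Finset.sum_congr rfl fun i _ => ?_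
  rw [mulVec, dotProduct, Finset.mul_sum]
  refine Finset.sum_congr rfl fun j _ => ?_
  rw [Matrix.map_apply]
  ring

theorem form_smul (L : Matrix (Fin n) (Fin n) ℤ) (c : ℝ) (x : Fin n → ℝ) :
    form L (fun i => c * x i) = c ^ 2 * form L x := by
  rw [form, form, Finset.mul_sum]
  refine Finset.sum_congr rfl fun i _ => ?_
  rw [Finset.mul_sum]
  refine Finset.sum_congr rfl fun j _ => ?_
  ring

theorem mem_realValues (L : Matrix (Fin n) (Fin n) ℤ) (t : ℝ) :
    t ∈ realValues L ↔ ∃ x : Fin n → ℝ, ∑ i, x i = 0 ∧ ∑ i, x i ^ 2 = 1 ∧ t = form L x := by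
  constructor
  · rintro ⟨x, h1, h2, h3⟩
    exact ⟨x, h1, h2, by rw [h3, form_eq]⟩
  · rintro ⟨x, h1, h2, h3⟩
    exact ⟨x, h1, h2, by rw [h3, form_eq]⟩

theorem abs_le_of_unit (L : Matrix (Fin n) (Fin n) ℤ) {t : ℝ} (ht : t ∈ realValues L) :
    |t| ≤ ∑ i, ∑ j, |(L i j : ℝ)| := by
  rw [mem_realValues] at ht
  obtain ⟨x, -, hx2, rfl⟩ := ht
  have h1 : ∀ i, |x i| ≤ 1 := by
    intro i
    have h2 : x i ^ 2 ≤ ∑ i, x i ^ 2 :=
      Finset.single_le_sum (f := fun i => x i ^ 2) (fun i _ => sq_nonneg _) (mem_univ i)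
    rw [hx2] at h2
    exact (sq_le_one_iff_abs_le_one _).1 h2
  refine (Finset.abs_sum_le_sum_abs _ _).trans (Finset.sum_le_sum fun i _ => ?_)
  refine (Finset.abs_sum_le_sum_abs _ _).trans (Finset.sum_le_sum fun j _ => ?_)
  rw [abs_mul, abs_mul]
  exact mul_le_of_le_one_right (abs_nonneg _)
    (mul_le_one₀ (h1 i) (abs_nonneg _) (h1 j))

theorem bddAbove_realValues (L : Matrix (Fin n) (Fin n) ℤ) : BddAbove (realValues L) :=
  ⟨_, fun _ ht => (le_abs_self _).trans (abs_le_of_unit L ht)⟩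

theorem bddBelow_realValues (L : Matrix (Fin n) (Fin n) ℤ) : BddBelow (realValues L) :=
  ⟨-(∑ i, ∑ j, |(L i j : ℝ)|), fun t ht => by
    have := abs_le_of_unit L ht
    have := neg_abs_le t
    linarith⟩

/-- The extreme values bound the form. -/
theorem form_bounds (L : Matrix (Fin n) (Fin n) ℤ) (x : Fin n → ℝ) (hx : ∑ i, x i = 0) :
    sInf (realValues L) * (∑ i, x i ^ 2) ≤ form L x ∧
      form L x ≤ sSup (realValues L) * (∑ i, x i ^ 2) := by
  by_cases h0 : ∑ i, x i ^ 2 = 0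
  · have h1 : ∀ i, x i = 0 := fun i => by
      have := (Finset.sum_eq_zero_iff_of_nonneg (fun i _ => sq_nonneg (x i))).1 h0 i (mem_univ i)
      exact pow_eq_zero_iff (two_ne_zero) |>.1 this
    have h2 : form L x = 0 := by
      rw [form]
      refine Finset.sum_eq_zero fun i _ => Finset.sum_eq_zero fun j _ => ?_
      rw [h1 i]
      ring
    rw [h2, h0]
    simp
  · have hpos : 0 < ∑ i, x i ^ 2 :=
      lt_of_le_of_ne (Finset.sum_nonneg fun i _ => sq_nonneg _) (Ne.symm h0)
    set c : ℝ := (Real.sqrt (∑ i, x i ^ 2))⁻¹ with hc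
    have hc2 : c ^ 2 = (∑ i, x i ^ 2)⁻¹ := by
      rw [hc, inv_pow, Real.sq_sqrt hpos.le]
    have hmem : c ^ 2 * form L x ∈ realValues L := by
      rw [mem_realValues]
      refine ⟨fun i => c * x i, ?_, ?_, ?_⟩
      · rw [← Finset.mul_sum, hx, mul_zero]
      · simp only [mul_pow]
        rw [← Finset.mul_sum, hc2, inv_mul_cancel₀ h0]
      · rw [form_smul]
    have h1 := csInf_le (bddBelow_realValues L) hmem
    have h2 := le_csSup (bddAbove_realValues L) hmem
    rw [hc2, ← div_eq_inv_mul] at h1 h2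
    rw [le_div_iff₀ hpos] at h1
    rw [div_le_iff₀ hpos] at h2
    exact ⟨h1, h2⟩

section digraph

variable (A : Fin n → Fin n → Prop) [DecidableRel A]

/-- The indicator of an arc. -/
def arc (i j : Fin n) : ℤ := if A i j then 1 else 0

/-- The pair values `v_{ij} = d_i + d_j + a_{ij} + a_{ji}`. -/
def pv (i j : Fin n) : ℤ := outDeg A i + outDeg A j + arc A i j + arc A j i

theorem pv_symm (i j : Fin n) : pv A i j = pv A j i := by
  rw [pv, pv]; ring

theorem outDeg_eq (i : Fin n) : (outDeg A i : ℤ) = ∑ j, arc A i j := by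
  rw [outDeg, Finset.card_filter]
  push_cast
  rfl

theorem two_form (x : Fin n → ℝ) (hx : ∑ i, x i = 0) (hA : ∀ i, ¬ A i i) :
    2 * form (lap A) x = -∑ i, ∑ j, (if i = j then 0 else (pv A i j : ℝ)) * (x i * x j) := by
  have h1 : form (lap A) x = ∑ i, (outDeg A i : ℝ) * x i ^ 2 -
      ∑ i, ∑ j, (arc A i j : ℝ) * (x i * x j) := by
    rw [form, ← Finset.sum_sub_distrib]
    refine Finset.sum_congr rfl fun i _ => ?_
    have e : ∀ j, ((lap A i j : ℤ) : ℝ) * (x i * x j) =
        (if i = j then (outDeg A i : ℝ) * (x i * x j) else 0) - (arc A i j : ℝ) * (x i * x j) := by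
      intro j
      rw [lap, arc]
      split_ifs <;> push_cast <;> ring
    simp only [e]
    rw [Finset.sum_sub_distrib, Finset.sum_ite_eq]
    simp only [Finset.mem_univ, if_true]
    ring
  have h2 : ∑ i, ∑ j, (arc A i j : ℝ) * (x i * x j) = ∑ i, ∑ j, (arc A j i : ℝ) * (x i * x j) := by
    rw [Finset.sum_comm]
    refine Finset.sum_congr rfl fun i _ => Finset.sum_congr rfl fun j _ => ?_
    ring
  have h3 : ∑ i, ∑ j, (if i = j then 0 else (pv A i j : ℝ)) * (x i * x j) =
      ∑ i, ∑ j, ((outDeg A i : ℝ) * (x i * x j)) + ∑ i, ∑ j, ((outDeg A j : ℝ) * (x i * x j)) +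
        ∑ i, ∑ j, (arc A i j : ℝ) * (x i * x j) + ∑ i, ∑ j, (arc A j i : ℝ) * (x i * x j) -
        2 * ∑ i, (outDeg A i : ℝ) * x i ^ 2 := by
    rw [← Finset.sum_add_distrib, ← Finset.sum_add_distrib, ← Finset.sum_add_distrib,
      Finset.mul_sum, ← Finset.sum_sub_distrib]
    refine Finset.sum_congr rfl fun i _ => ?_
    rw [← Finset.sum_add_distrib, ← Finset.sum_add_distrib, ← Finset.sum_add_distrib]
    have e : ∀ j, (if i = j then 0 else (pv A i j : ℝ)) * (x i * x j) =
        ((outDeg A i : ℝ) * (x i * x j) + (outDeg A j : ℝ) * (x i * x j) +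
          (arc A i j : ℝ) * (x i * x j) + (arc A j i : ℝ) * (x i * x j)) -
        (if i = j then 2 * ((outDeg A i : ℝ) * (x i * x j)) else 0) := by
      intro j
      by_cases hij : i = j
      · subst hij
        rw [if_pos rfl, if_pos rfl, arc, if_neg (hA i)]
        push_cast
        ring
      · rw [if_neg hij, if_neg hij, pv]
        push_cast
        ring
    simp only [e]
    rw [Finset.sum_sub_distrib, Finset.sum_ite_eq]
    simp only [Finset.mem_univ, if_true]
    ring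
  have h4 : ∑ i, ∑ j, ((outDeg A i : ℝ) * (x i * x j)) = 0 := by
    refine Finset.sum_eq_zero fun i _ => ?_
    rw [← Finset.mul_sum, ← Finset.mul_sum, hx, mul_zero, mul_zero]
  have h5 : ∑ i, ∑ j, ((outDeg A j : ℝ) * (x i * x j)) = 0 := by
    rw [Finset.sum_comm]
    refine Finset.sum_eq_zero fun j _ => ?_
    rw [← Finset.mul_sum, ← Finset.sum_mul, hx, zero_mul, mul_zero]
  rw [h3, h4, h5, ← h2, h1]
  ring

/-- The total of the pair values. -/
theorem sum_pv (hA : ∀ i, ¬ A i i) :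
    ∑ i, ∑ j, (if i = j then 0 else pv A i j) = 2 * n * ∑ i, (outDeg A i : ℤ) := by
  have h1 : ∑ i, ∑ j, (if i = j then 0 else pv A i j) =
      ∑ i, ∑ _j : Fin n, (outDeg A i : ℤ) + ∑ _i : Fin n, ∑ j, (outDeg A j : ℤ) + ∑ i, ∑ j, arc A i j +
        ∑ i, ∑ j, arc A j i - 2 * ∑ i, (outDeg A i : ℤ) := by
    rw [← Finset.sum_add_distrib, ← Finset.sum_add_distrib, ← Finset.sum_add_distrib,
      Finset.mul_sum, ← Finset.sum_sub_distrib]
    refine Finset.sum_congr rfl fun i _ => ?_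
    rw [← Finset.sum_add_distrib, ← Finset.sum_add_distrib, ← Finset.sum_add_distrib]
    have e : ∀ j, (if i = j then 0 else pv A i j) =
        ((outDeg A i : ℤ) + (outDeg A j : ℤ) + arc A i j + arc A j i) -
        (if i = j then 2 * (outDeg A i : ℤ) else 0) := by
      intro j
      by_cases hij : i = j
      · subst hij
        rw [if_pos rfl, if_pos rfl, arc, if_neg (hA i)]
        ring
      · rw [if_neg hij, if_neg hij, pv]
        ring
    simp only [e]
    rw [Finset.sum_sub_distrib, Finset.sum_ite_eq]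
    simp only [Finset.mem_univ, if_true]
  have h2 : ∑ i, ∑ j, arc A j i = ∑ i, ∑ j, arc A i j := Finset.sum_comm
  have h3 : ∑ i, ∑ j, arc A i j = ∑ i, (outDeg A i : ℤ) :=
    Finset.sum_congr rfl fun i _ => (outDeg_eq A i).symm
  rw [h1, h2, h3]
  simp only [Finset.sum_const, Finset.card_univ, Fintype.card_fin, nsmul_eq_mul]
  rw [← Finset.mul_sum]
  ring

end digraph

end Pool.Agent.Q105.Poly
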