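import Pool.Agent.Q105.Poly.Classify

/-!
# Graphs with an isolated vertex, small spread and number of edges divisible as required
-/

namespace Pool.Agent.Q105.Poly

open Finset

variable {n : ℕ}

/-- The number of ordered adjacent pairs of a graph. -/
def ecnt (G : SimpleGraph (Fin n)) [DecidableRel G.Adj] : ℤ :=
  ∑ i, ∑ j, (if G.Adj i j then 1 else 0)

theorem ecnt_of_bij {G : SimpleGraph (Fin n)} [DecidableRel G.Adj] {k : ℕ} {φ : Fin k → Fin n}
    (hφ : Function.Bijective φ) (g : Fin k → Fin k → Bool)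
    (hg : ∀ i j, g i j = true ↔ G.Adj (φ i) (φ j)) : ecnt G = cnt g := by
  rw [ecnt, cnt, ← (Equiv.ofBijective φ hφ).sum_comp]
  refine Finset.sum_congr rfl fun i _ => ?_
  rw [← (Equiv.ofBijective φ hφ).sum_comp]
  refine Finset.sum_congr rfl fun j _ => ?_
  simp only [Equiv.ofBijective_apply]
  by_cases h : G.Adj (φ i) (φ j)
  · rw [if_pos h, if_pos ((hg i j).2 h)]
  · rw [if_neg h, if_neg (fun h' => h ((hg i j).1 h'))]

theorem inj4 {α : Type*} {a b c d : α} (h1 : a ≠ b) (h2 : a ≠ c) (h3 : a ≠ d) (h4 : b ≠ c)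
    (h5 : b ≠ d) (h6 : c ≠ d) : Function.Injective ![a, b, c, d] := by
  intro i j hij
  fin_cases i <;> fin_cases j <;> simp_all

theorem inj5 {α : Type*} {a b c d e : α} (h1 : a ≠ b) (h2 : a ≠ c) (h3 : a ≠ d) (h4 : b ≠ c)
    (h5 : b ≠ d) (h6 : c ≠ d) (h7 : a ≠ e) (h8 : b ≠ e) (h9 : c ≠ e) (h10 : d ≠ e) :
    Function.Injective ![a, b, c, d, e] := by
  intro i j hij
  fin_cases i <;> fin_cases j <;> simp_all

/-- Six vertices: `z` isolated, `c` joined to `y1`, `y2` and to every non-isolated vertex. -/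
theorem Small.six {G : SimpleGraph (Fin n)} [DecidableRel G.Adj] (hG : Small G)
    {z c y1 y2 y3 y4 : Fin n} (hz : ∀ y, ¬ G.Adj z y)
    (hc : ∀ y w, y ≠ c → G.Adj y w → G.Adj c y)
    (h1 : G.Adj c y1) (h2 : G.Adj c y2) (h12 : y1 ≠ y2)
    (hz3 : y3 ≠ z) (hc3 : y3 ≠ c) (h13 : y1 ≠ y3) (h23 : y2 ≠ y3)
    (hz4 : y4 ≠ z) (hc4 : y4 ≠ c) (h14 : y1 ≠ y4) (h24 : y2 ≠ y4) (h34 : y3 ≠ y4) :
    G.Adj c y3 ∧ G.Adj c y4 ∧ G.Adj y1 y2 ∧ G.Adj y1 y3 ∧ G.Adj y1 y4 ∧ G.Adj y2 y3 ∧
      G.Adj y2 y4 ∧ G.Adj y3 y4 := by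
  by_contra hcon
  have hzc : z ≠ c := by
    rintro rfl
    exact hz _ h1
  have hz1 : z ≠ y1 := by
    rintro rfl
    exact hz _ h1.symm
  have hz2 : z ≠ y2 := by
    rintro rfl
    exact hz _ h2.symm
  have hc1 := h1.ne
  have hc2 := h2.ne
  have hinj : Function.Injective ![z, c, y1, y2, y3, y4] := by
    intro a b hab
    fin_cases a <;> fin_cases b <;> simp_all
  have a3 : ¬ G.Adj c y3 → ¬ G.Adj y1 y3 ∧ ¬ G.Adj y2 y3 ∧ ¬ G.Adj y3 y4 := fun h =>
    ⟨fun h' => h (hc y3 y1 hc3 h'.symm), fun h' => h (hc y3 y2 hc3 h'.symm),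
      fun h' => h (hc y3 y4 hc3 h')⟩
  have a4 : ¬ G.Adj c y4 → ¬ G.Adj y1 y4 ∧ ¬ G.Adj y2 y4 ∧ ¬ G.Adj y3 y4 := fun h =>
    ⟨fun h' => h (hc y4 y1 hc4 h'.symm), fun h' => h (hc y4 y2 hc4 h'.symm),
      fun h' => h (hc y4 y3 hc4 h'.symm)⟩
  have hf := fin6 (decide (G.Adj c y3)) (decide (G.Adj c y4)) (decide (G.Adj y1 y2))
    (decide (G.Adj y1 y3)) (decide (G.Adj y1 y4)) (decide (G.Adj y2 y3)) (decide (G.Adj y2 y4))
    (decide (G.Adj y3 y4)) (by
      rw [Bool.and_eq_true, Bool.and_eq_true]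
      refine ⟨⟨?_, ?_⟩, ?_⟩
      · by_cases h : G.Adj c y3
        · simp [h]
        · obtain ⟨b1, b2, b3⟩ := a3 h
          simp [b1, b2, b3]
      · by_cases h : G.Adj c y4
        · simp [h]
        · obtain ⟨b1, b2, b3⟩ := a4 h
          simp [b1, b2, b3]
      · rw [Bool.not_eq_true']
        by_contra hb
        rw [Bool.not_eq_false] at hb
        simp only [Bool.and_eq_true, decide_eq_true_eq] at hb
        exact hcon ⟨hb.1.1.1.1.1.1.1, hb.1.1.1.1.1.1.2, hb.1.1.1.1.1.2, hb.1.1.1.1.2,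
          hb.1.1.1.2, hb.1.1.2, hb.1.2, hb.2⟩)
  rw [List.any_eq_true] at hf
  obtain ⟨p, -, hp⟩ := hf
  refine hG.no_check hinj _ (hg_of _ _ ?_ ?_ ?_) _ _ ((check6_eq _ _ _).symm.trans hp)
  · intro a
    fin_cases a <;> rfl
  · intro a b
    fin_cases a <;> fin_cases b <;> rfl
  · intro a b hab
    fin_cases a <;> fin_cases b <;> simp [adj6, h1, h2, hz] at hab ⊢

/-- Five vertices. -/
theorem Small.five {G : SimpleGraph (Fin 5)} [DecidableRel G.Adj] (hG : Small G)
    {z c y1 y2 y3 : Fin 5} (hz : ∀ y, ¬ G.Adj z y)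
    (hc : ∀ y w, y ≠ c → G.Adj y w → G.Adj c y)
    (h1 : G.Adj c y1) (h2 : G.Adj c y2) (h12 : y1 ≠ y2)
    (hz3 : y3 ≠ z) (hc3 : y3 ≠ c) (h13 : y1 ≠ y3) (h23 : y2 ≠ y3)
    (hd : (5 : ℤ) ∣ ecnt G) : False := by
  have hzc : z ≠ c := by
    rintro rfl
    exact hz _ h1
  have hz1 : z ≠ y1 := by
    rintro rfl
    exact hz _ h1.symm
  have hz2 : z ≠ y2 := by
    rintro rfl
    exact hz _ h2.symm
  have hc1 := h1.ne
  have hc2 := h2.ne
  have hinj : Function.Injective ![z, c, y1, y2, y3] := by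
    intro a b hab
    fin_cases a <;> fin_cases b <;> simp_all
  have hbij : Function.Bijective ![z, c, y1, y2, y3] := Finite.injective_iff_bijective.1 hinj
  have a3 : ¬ G.Adj c y3 → ¬ G.Adj y1 y3 ∧ ¬ G.Adj y2 y3 := fun h =>
    ⟨fun h' => h (hc y3 y1 hc3 h'.symm), fun h' => h (hc y3 y2 hc3 h'.symm)⟩
  have hg := hg_of (G := G) ![z, c, y1, y2, y3] (adj5 (decide (G.Adj c y3))
    (decide (G.Adj y1 y2)) (decide (G.Adj y1 y3)) (decide (G.Adj y2 y3))) (by
      intro a
      fin_cases a <;> rfl) (by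
      intro a b
      fin_cases a <;> fin_cases b <;> rfl) (by
      intro a b hab
      fin_cases a <;> fin_cases b <;> simp [adj5, h1, h2, hz] at hab ⊢)
  have hf := fin5 (decide (G.Adj c y3)) (decide (G.Adj y1 y2)) (decide (G.Adj y1 y3))
    (decide (G.Adj y2 y3)) (by
      rw [Bool.and_eq_true]
      refine ⟨?_, ?_⟩
      · by_cases h : G.Adj c y3
        · simp [h]
        · obtain ⟨b1, b2⟩ := a3 h
          simp [b1, b2]
      · rw [decide_eq_true_eq, ← ecnt_of_bij hbij _ hg]
        exact hd)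
  rw [List.any_eq_true] at hf
  obtain ⟨p, -, hp⟩ := hf
  exact hG.no_check hinj _ hg _ _ hp

set_option maxHeartbeats 1000000 in
/-- **Classification.** -/
theorem Small.classify {G : SimpleGraph (Fin n)} [DecidableRel G.Adj] (hG : Small G) (hn : 3 ≤ n)
    (hd : (n : ℤ) ∣ ecnt G) {z : Fin n} (hz : ∀ y, ¬ G.Adj z y) :
    (∀ i j, ¬ G.Adj i j) ∨ (n = 4 ∧ ∃ c a b : Fin n, z ≠ c ∧ z ≠ a ∧ z ≠ b ∧ a ≠ b ∧
      G.Adj c a ∧ G.Adj c b ∧ ¬ G.Adj a b ∧ ∀ y, y = z ∨ y = c ∨ y = a ∨ y = b) := by
  obtain ⟨c, -, hcmax⟩ := Finset.exists_max_image (Finset.univ : Finset (Fin n)) (fun w => G.degree w)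
    ⟨z, mem_univ z⟩
  have hc : ∀ y w, y ≠ c → G.Adj y w → G.Adj c y := fun y w hy hyw =>
    hG.max_adj (fun w => hcmax w (mem_univ w)) hy hyw
  by_cases hex : ∃ b1, G.Adj c b1
  swap
  · left
    intro i j hij
    push Not at hex
    by_cases hic : i = c
    · subst hic
      exact hex j hij
    · exact hex i (hc i j hic hij)
  obtain ⟨b1, hb1⟩ := hex
  have hzc : z ≠ c := by
    rintro rfl
    exact hz _ hb1
  have hzb1 : z ≠ b1 := by
    rintro rfl
    exact hz _ hb1.symm
  by_cases hex2 : ∃ b2, b2 ≠ b1 ∧ G.Adj c b2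
  swap
  · exfalso
    push Not at hex2
    have hadj : ∀ i j, G.Adj i j ↔ (i = c ∧ j = b1) ∨ (i = b1 ∧ j = c) := by
      intro i j
      constructor
      · intro hij
        by_cases hic : i = c
        · subst hic
          by_cases hjb : j = b1
          · exact Or.inl ⟨rfl, hjb⟩
          · exact absurd hij (hex2 j hjb)
        · have h1 := hc i j hic hij
          have hib : i = b1 := by
            by_contra h
            exact hex2 i h h1
          subst hib
          by_cases hjc : j = c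
          · exact Or.inr ⟨rfl, hjc⟩
          · have h2 := hc j i hjc hij.symm
            by_cases hjb : j = i
            · subst hjb
              exact absurd hij G.irrefl
            · exact absurd h2 (hex2 j hjb)
      · rintro (⟨rfl, rfl⟩ | ⟨rfl, rfl⟩)
        · exact hb1
        · exact hb1.symm
    have hcount : ecnt G = 2 := by
      rw [ecnt]
      have e : ∀ i, (∑ j, (if G.Adj i j then (1 : ℤ) else 0)) =
          (if i = c then 1 else 0) + (if i = b1 then 1 else 0) := by
        intro i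
        have e1 : ∀ j, (if G.Adj i j then (1 : ℤ) else 0) =
            (if j = b1 then (if i = c then 1 else 0) else 0) +
              (if j = c then (if i = b1 then 1 else 0) else 0) := by
          intro j
          have hne := hb1.ne
          by_cases h1 : i = c
          · subst h1
            by_cases h2 : j = b1
            · subst h2
              rw [if_pos hb1, if_pos rfl, if_pos rfl, if_neg hne.symm]
              ring
            · rw [if_neg (fun h => hex2 j h2 h), if_neg h2, if_neg hne]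
              simp
          · rw [if_neg h1]
            by_cases h2 : i = b1
            · subst h2
              by_cases h3 : j = c
              · subst h3
                rw [if_pos hb1.symm, if_neg hne, if_pos rfl, if_pos rfl]
                ring
              · rw [if_neg (fun h => ?_), if_neg h3]
                · simp
                · rcases (hadj i j).1 h with h' | h'
                  · exact h1 h'.1
                  · exact h3 h'.2
            · rw [if_neg (fun h => ?_), if_neg h2]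
              · simp
              · rcases (hadj i j).1 h with h' | h'
                · exact h1 h'.1
                · exact h2 h'.1
        rw [Finset.sum_congr rfl (fun j _ => e1 j), Finset.sum_add_distrib,
          Finset.sum_ite_eq', Finset.sum_ite_eq']
        simp
      rw [Finset.sum_congr rfl (fun i _ => e i), Finset.sum_add_distrib,
        Finset.sum_ite_eq', Finset.sum_ite_eq']
      simp
    rw [hcount] at hd
    have := Int.le_of_dvd (by norm_num) hd
    omega
  obtain ⟨b2, hb21, hb2⟩ := hex2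
  have hzb2 : z ≠ b2 := by
    rintro rfl
    exact hz _ hb2.symm
  have hcb1 := hb1.ne
  have hcb2 := hb2.ne
  -- the six-vertex case
  by_cases hex3 : ∃ y, y ≠ z ∧ y ≠ c ∧ y ≠ b1 ∧ y ≠ b2
  swap
  · -- four vertices
    push Not at hex3
    have hall : ∀ y, y = z ∨ y = c ∨ y = b1 ∨ y = b2 := by
      intro y
      by_contra h
      push Not at h
      exact h.2.2.2 (hex3 y h.1 h.2.1 h.2.2.1)
    have hinj : Function.Injective ![z, c, b1, b2] :=
      inj4 hzc hzb1 hzb2 hcb1 hcb2 (Ne.symm hb21)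
    have hsurj : Function.Surjective ![z, c, b1, b2] := by
      intro y
      rcases hall y with h | h | h | h
      · exact ⟨0, h.symm⟩
      · exact ⟨1, h.symm⟩
      · exact ⟨2, h.symm⟩
      · exact ⟨3, h.symm⟩
    have hn4 : n = 4 := by
      have := Fintype.card_of_bijective ⟨hinj, hsurj⟩
      rw [Fintype.card_fin, Fintype.card_fin] at this
      exact this.symm
    right
    refine ⟨hn4, c, b1, b2, hzc, hzb1, hzb2, Ne.symm hb21, hb1, hb2, ?_, hall⟩
    intro h12
    have hg := hg_of (G := G) ![z, c, b1, b2] (!![false, false, false, false;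
        false, false, true, true; false, true, false, true; false, true, true, false] :
        Matrix (Fin 4) (Fin 4) Bool) (by
        intro a
        fin_cases a <;> rfl) (by
        intro a b
        fin_cases a <;> fin_cases b <;> rfl) (by
        intro a b hab
        fin_cases a <;> fin_cases b <;> simp [hb1, hb2, hz, h12] at hab ⊢)
    have hcnt := ecnt_of_bij ⟨hinj, hsurj⟩ _ hg
    have hcnt2 : cnt (!![false, false, false, false;
        false, false, true, true; false, true, false, true; false, true, true, false] :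
        Matrix (Fin 4) (Fin 4) Bool) = 6 := by decide +kernel
    rw [hcnt, hcnt2, hn4] at hd
    exact absurd hd (by decide)
  obtain ⟨y3, hy3z, hy3c, hy3b1, hy3b2⟩ := hex3
  by_cases hex4 : ∃ y, y ≠ z ∧ y ≠ c ∧ y ≠ b1 ∧ y ≠ b2 ∧ y ≠ y3
  swap
  · -- five vertices
    exfalso
    push Not at hex4
    have hall : ∀ y, y = z ∨ y = c ∨ y = b1 ∨ y = b2 ∨ y = y3 := by
      intro y
      by_contra h
      push Not at h
      exact h.2.2.2.2 (hex4 y h.1 h.2.1 h.2.2.1 h.2.2.2.1)
    have hinj : Function.Injective ![z, c, b1, b2, y3] :=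
      inj5 hzc hzb1 hzb2 hcb1 hcb2 (Ne.symm hb21) (Ne.symm hy3z) (Ne.symm hy3c) (Ne.symm hy3b1)
        (Ne.symm hy3b2)
    have hsurj : Function.Surjective ![z, c, b1, b2, y3] := by
      intro y
      rcases hall y with h | h | h | h | h
      · exact ⟨0, h.symm⟩
      · exact ⟨1, h.symm⟩
      · exact ⟨2, h.symm⟩
      · exact ⟨3, h.symm⟩
      · exact ⟨4, h.symm⟩
    have hn5 : n = 5 := by
      have := Fintype.card_of_bijective ⟨hinj, hsurj⟩
      rw [Fintype.card_fin, Fintype.card_fin] at this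
      exact this.symm
    subst hn5
    exact hG.five hz hc hb1 hb2 (Ne.symm hb21) hy3z hy3c (Ne.symm hy3b1) (Ne.symm hy3b2) hd
  -- at least six vertices
  exfalso
  have hthree : ∀ y, y ≠ z → y ≠ c → y ≠ b1 → y ≠ b2 →
      G.Adj c y ∧ G.Adj b1 b2 ∧ G.Adj b1 y ∧ G.Adj b2 y := by
    intro y h1 h2 h3 h4
    have hex5 : ∃ y', y' ≠ z ∧ y' ≠ c ∧ y' ≠ b1 ∧ y' ≠ b2 ∧ y' ≠ y := by
      by_cases h : y = y3
      · obtain ⟨y4, g1, g2, g3, g4, g5⟩ := hex4
        exact ⟨y4, g1, g2, g3, g4, by rw [h]; exact g5⟩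
      · exact ⟨y3, hy3z, hy3c, hy3b1, hy3b2, Ne.symm h⟩
    obtain ⟨y', g1, g2, g3, g4, g5⟩ := hex5
    have := hG.six hz hc hb1 hb2 (Ne.symm hb21) h1 h2 (Ne.symm h3) (Ne.symm h4) g1 g2
      (Ne.symm g3) (Ne.symm g4) (Ne.symm g5)
    exact ⟨this.1, this.2.2.1, this.2.2.2.1, this.2.2.2.2.2.1⟩
  have hcadj : ∀ y, y ≠ z → y ≠ c → G.Adj c y := by
    intro y h1 h2
    by_cases h3 : y = b1
    · rw [h3]; exact hb1
    · by_cases h4 : y = b2
      · rw [h4]; exact hb2
      · exact (hthree y h1 h2 h3 h4).1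
  have hb12 : G.Adj b1 b2 := (hthree y3 hy3z hy3c hy3b1 hy3b2).2.1
  have hyadj : ∀ y y', y ≠ z → y ≠ c → y' ≠ z → y' ≠ c → y ≠ y' → G.Adj y y' := by
    have hb1y : ∀ y, y ≠ z → y ≠ c → y ≠ b1 → G.Adj b1 y := by
      intro y h1 h2 h3
      by_cases h4 : y = b2
      · rw [h4]; exact hb12
      · exact (hthree y h1 h2 h3 h4).2.2.1
    have hb2y : ∀ y, y ≠ z → y ≠ c → y ≠ b2 → G.Adj b2 y := by
      intro y h1 h2 h3
      by_cases h4 : y = b1
      · rw [h4]; exact hb12.symm
      · exact (hthree y h1 h2 h4 h3).2.2.2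
    intro y y' h1 h2 h1' h2' hne
    by_cases h3 : y = b1
    · subst h3
      exact hb1y y' h1' h2' (Ne.symm hne)
    by_cases h3' : y' = b1
    · subst h3'
      exact (hb1y y h1 h2 hne).symm
    by_cases h4 : y = b2
    · subst h4
      exact hb2y y' h1' h2' (Ne.symm hne)
    by_cases h4' : y' = b2
    · subst h4'
      exact (hb2y y h1 h2 hne).symm
    exact (hG.six hz hc hb1 hb2 (Ne.symm hb21) h1 h2 (Ne.symm h3) (Ne.symm h4) h1' h2'
      (Ne.symm h3') (Ne.symm h4') hne).2.2.2.2.2.2.2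
  have hadj : ∀ i j, G.Adj i j ↔ i ≠ j ∧ i ≠ z ∧ j ≠ z := by
    intro i j
    constructor
    · intro h
      refine ⟨h.ne, ?_, ?_⟩
      · rintro rfl
        exact hz _ h
      · rintro rfl
        exact hz _ h.symm
    · rintro ⟨h1, h2, h3⟩
      by_cases hi : i = c
      · subst hi
        exact hcadj j h3 (Ne.symm h1)
      · by_cases hj : j = c
        · subst hj
          exact (hcadj i h2 hi).symm
        · exact hyadj i j h2 hi h3 hj h1
  have hcount : ecnt G = ((n : ℤ) - 1) * (n - 2) := by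
    rw [ecnt]
    have e : ∀ i, (∑ j, (if G.Adj i j then (1 : ℤ) else 0)) =
        ((n : ℤ) - 2) - (if i = z then (n : ℤ) - 2 else 0) := by
      intro i
      by_cases hi : i = z
      · rw [if_pos hi, sub_self]
        refine Finset.sum_eq_zero fun j _ => ?_
        rw [if_neg]
        rw [hi]
        exact hz j
      · rw [if_neg hi, sub_zero]
        have e1 : ∀ j, (if G.Adj i j then (1 : ℤ) else 0) =
            1 - (if j = i then 1 else 0) - (if j = z then 1 else 0) := by
          intro j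
          by_cases h1 : j = i
          · subst h1
            rw [if_neg G.irrefl, if_pos rfl, if_neg hi]
            ring
          · by_cases h2 : j = z
            · subst h2
              rw [if_neg (fun h => hz _ h.symm), if_neg h1, if_pos rfl]
              ring
            · rw [if_pos ((hadj i j).2 ⟨Ne.symm h1, hi, h2⟩), if_neg h1, if_neg h2]
              ring
        rw [Finset.sum_congr rfl (fun j _ => e1 j), Finset.sum_sub_distrib,
          Finset.sum_sub_distrib, Finset.sum_ite_eq', Finset.sum_ite_eq']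
        simp
        ring
    rw [Finset.sum_congr rfl (fun i _ => e i), Finset.sum_sub_distrib, Finset.sum_ite_eq']
    simp
    ring
  rw [hcount] at hd
  have h2 : (n : ℤ) ∣ 2 := by
    have : (2 : ℤ) = ((n : ℤ) - 1) * (n - 2) - n * (n - 3) := by ring
    rw [this]
    exact dvd_sub hd (dvd_mul_right _ _)
  have := Int.le_of_dvd (by norm_num) h2
  omega

end Pool.Agent.Q105.Poly
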