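import Pool.Agent.Q105.Poly.Form
import Pool.Agent.Q105.Poly.Main

/-!
# Digraphs with Laplacian spread strictly between zero and one
-/

namespace Pool.Agent.Q105.Poly

open Finset

variable {n : ℕ}

/-- The Laplacian spread. -/
noncomputable def spreadL (L : Matrix (Fin n) (Fin n) ℤ) : ℝ :=
  sSup (realValues L) - sInf (realValues L)

section

variable {A : Fin n → Fin n → Prop} [DecidableRel A]

theorem form_pair (hA : ∀ i, ¬ A i i) {i j : Fin n} (hij : i ≠ j) :
    form (lap A) (fun a => (if a = i then 1 else 0) - (if a = j then 1 else 0)) = pv A i j := by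
  have h1 := two_form A (fun a => (if a = i then (1 : ℝ) else 0) - (if a = j then 1 else 0))
    (by simp [Finset.sum_sub_distrib]) hA
  have h2 : ∑ a, ∑ b, (if a = b then 0 else (pv A a b : ℝ)) *
      (((if a = i then (1 : ℝ) else 0) - (if a = j then 1 else 0)) *
        ((if b = i then (1 : ℝ) else 0) - (if b = j then 1 else 0))) = -2 * (pv A i j : ℝ) := by
    have e : ∀ a, ∑ b, (if a = b then 0 else (pv A a b : ℝ)) *
        (((if a = i then (1 : ℝ) else 0) - (if a = j then 1 else 0)) *
          ((if b = i then (1 : ℝ) else 0) - (if b = j then 1 else 0))) =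
        (if a = i then -(pv A i j : ℝ) else 0) + (if a = j then -(pv A j i : ℝ) else 0) := by
      intro a
      have e1 : ∀ b, (if a = b then 0 else (pv A a b : ℝ)) *
          (((if a = i then (1 : ℝ) else 0) - (if a = j then 1 else 0)) *
            ((if b = i then (1 : ℝ) else 0) - (if b = j then 1 else 0))) =
          (if b = i then (if a = i then 0 else (pv A a i : ℝ)) *
            ((if a = i then (1 : ℝ) else 0) - (if a = j then 1 else 0)) else 0) -
          (if b = j then (if a = j then 0 else (pv A a j : ℝ)) *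
            ((if a = i then (1 : ℝ) else 0) - (if a = j then 1 else 0)) else 0) := by
        intro b
        by_cases hbi : b = i
        · subst hbi
          rw [if_pos rfl, if_pos rfl, if_neg hij, if_neg hij]
          ring
        · by_cases hbj : b = j
          · subst hbj
            rw [if_neg (Ne.symm hij), if_pos rfl, if_neg (Ne.symm hij), if_pos rfl]
            ring
          · rw [if_neg hbi, if_neg hbj, if_neg hbi, if_neg hbj]
            ring
      rw [Finset.sum_congr rfl (fun b _ => e1 b), Finset.sum_sub_distrib, Finset.sum_ite_eq',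
        Finset.sum_ite_eq', if_pos (mem_univ _), if_pos (mem_univ _)]
      by_cases hai : a = i
      · subst hai
        rw [if_pos rfl, if_neg hij, if_neg hij, if_pos rfl, if_pos rfl, if_neg hij]
        ring
      · by_cases haj : a = j
        · subst haj
          rw [if_neg hai, if_neg hai, if_pos rfl, if_pos rfl, if_neg hai, if_pos rfl]
          ring
        · rw [if_neg hai, if_neg hai, if_neg haj, if_neg hai, if_neg haj, if_neg haj]
          ring
    rw [Finset.sum_congr rfl (fun a _ => e a), Finset.sum_add_distrib, Finset.sum_ite_eq',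
      Finset.sum_ite_eq', if_pos (mem_univ _), if_pos (mem_univ _), pv_symm A j i]
    ring
  rw [h2] at h1
  linarith

theorem pv_bounds (hA : ∀ i, ¬ A i i) {i j : Fin n} (hij : i ≠ j) :
    2 * sInf (realValues (lap A)) ≤ pv A i j ∧ (pv A i j : ℝ) ≤ 2 * sSup (realValues (lap A)) := by
  have h1 := form_bounds (lap A) (fun a => (if a = i then (1 : ℝ) else 0) - (if a = j then 1 else 0))
    (by simp [Finset.sum_sub_distrib])
  rw [form_pair hA hij] at h1
  have h2 : ∑ a, ((if a = i then (1 : ℝ) else 0) - (if a = j then 1 else 0)) ^ 2 = 2 := by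
    have e : ∀ a, ((if a = i then (1 : ℝ) else 0) - (if a = j then 1 else 0)) ^ 2 =
        (if a = i then 1 else 0) + (if a = j then 1 else 0) := by
      intro a
      by_cases hai : a = i
      · subst hai
        rw [if_pos rfl, if_neg hij]
        norm_num
      · by_cases haj : a = j
        · rw [if_neg hai, if_pos haj]
          norm_num
        · rw [if_neg hai, if_neg haj]
          norm_num
    rw [Finset.sum_congr rfl (fun a _ => e a), Finset.sum_add_distrib, Finset.sum_ite_eq',
      Finset.sum_ite_eq', if_pos (mem_univ _), if_pos (mem_univ _)]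
    norm_num
  rw [h2] at h1
  constructor <;> linarith [h1.1, h1.2]

/-- If all pair values are equal then the spread is zero. -/
theorem spread_const (hA : ∀ i, ¬ A i i) (k : ℤ) (h : ∀ i j, i ≠ j → pv A i j = k) :
    spreadL (lap A) = 0 := by
  have h1 : ∀ t ∈ realValues (lap A), t = (k : ℝ) / 2 := by
    intro t ht
    rw [mem_realValues] at ht
    obtain ⟨x, hx0, hx1, rfl⟩ := ht
    have h2 := two_form A x hx0 hA
    have h3 : ∑ i, ∑ j, (if i = j then 0 else (pv A i j : ℝ)) * (x i * x j) = -(k : ℝ) := by
      have e : ∀ i, ∑ j, (if i = j then 0 else (pv A i j : ℝ)) * (x i * x j) =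
          -((k : ℝ) * x i ^ 2) := by
        intro i
        have e1 : ∀ j, (if i = j then 0 else (pv A i j : ℝ)) * (x i * x j) =
            (k : ℝ) * x i * x j - (if i = j then (k : ℝ) * x i * x j else 0) := by
          intro j
          by_cases hij : i = j
          · rw [if_pos hij, if_pos hij]
            ring
          · rw [if_neg hij, if_neg hij, h i j hij]
            ring
        rw [Finset.sum_congr rfl (fun j _ => e1 j), Finset.sum_sub_distrib, ← Finset.mul_sum, hx0,
          Finset.sum_ite_eq, if_pos (mem_univ _)]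
        ring
      rw [Finset.sum_congr rfl (fun i _ => e i), Finset.sum_neg_distrib, ← Finset.mul_sum, hx1,
        mul_one]
    rw [h3] at h2
    linarith
  rw [spreadL]
  rcases Set.eq_empty_or_nonempty (realValues (lap A)) with h2 | ⟨t, ht⟩
  · rw [h2, Real.sSup_empty, Real.sInf_empty, sub_zero]
  · have h3 : realValues (lap A) = {(k : ℝ) / 2} := by
      apply Set.eq_singleton_iff_unique_mem.2
      refine ⟨?_, h1⟩
      rw [← h1 t ht]
      exact ht
    rw [h3, csSup_singleton, csInf_singleton, sub_self]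

/-- The graph of the pairs whose value is `k + 1`. -/
def vg (A : Fin n → Fin n → Prop) [DecidableRel A] (k : ℤ) : SimpleGraph (Fin n) where
  Adj i j := i ≠ j ∧ pv A i j = k
  symm := ⟨fun i j h => ⟨h.1.symm, by rw [pv_symm]; exact h.2⟩⟩
  loopless := ⟨fun _ h => h.1 rfl⟩

instance (k : ℤ) : DecidableRel (vg A k).Adj := fun i j =>
  inferInstanceAs (Decidable (i ≠ j ∧ pv A i j = k))

theorem form_vg (hA : ∀ i, ¬ A i i) {k : ℤ} (hk : ∀ i j, i ≠ j → pv A i j = k ∨ pv A i j = k + 1)
    (x : Fin n → ℝ) (hx : ∑ i, x i = 0) :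
    gq (vg A (k + 1)) x x = k * ∑ i, x i ^ 2 - 2 * form (lap A) x := by
  rw [two_form A x hx hA]
  have h1 : ∑ i, ∑ j, (if i = j then 0 else (pv A i j : ℝ)) * (x i * x j) =
      gq (vg A (k + 1)) x x - k * ∑ i, x i ^ 2 := by
    rw [gq, Finset.mul_sum, ← Finset.sum_sub_distrib]
    refine Finset.sum_congr rfl fun i _ => ?_
    have e1 : ∀ j, (if i = j then 0 else (pv A i j : ℝ)) * (x i * x j) =
        (if (vg A (k + 1)).Adj i j then x i * x j else 0) + (k : ℝ) * x i * x j -
          (if i = j then (k : ℝ) * x i * x j else 0) := by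
      intro j
      by_cases hij : i = j
      · subst hij
        rw [if_pos rfl, if_neg (SimpleGraph.irrefl _), if_pos rfl]
        ring
      · rw [if_neg hij, if_neg hij]
        by_cases h : pv A i j = k + 1
        · rw [if_pos ⟨hij, h⟩, h]
          push_cast
          ring
        · rw [if_neg (fun h' => h h'.2), (hk i j hij).resolve_right h]
          ring
    rw [Finset.sum_congr rfl (fun j _ => e1 j), Finset.sum_sub_distrib, Finset.sum_add_distrib,
      ← Finset.mul_sum, hx, Finset.sum_ite_eq, if_pos (mem_univ _)]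
    ring
  rw [h1]
  ring

theorem ecnt_vg (hA : ∀ i, ¬ A i i) {k : ℤ}
    (hk : ∀ i j, i ≠ j → pv A i j = k ∨ pv A i j = k + 1) :
    (n : ℤ) ∣ ecnt (vg A (k + 1)) := by
  have h1 := sum_pv A hA
  have h2 : ∑ i, ∑ j, (if i = j then 0 else pv A i j) =
      ecnt (vg A (k + 1)) + k * (n * (n - 1)) := by
    have e : ∀ i, ∑ j, (if i = j then 0 else pv A i j) =
        (∑ j, (if (vg A (k + 1)).Adj i j then (1 : ℤ) else 0)) + k * (n - 1) := by
      intro i
      have e1 : ∀ j, (if i = j then 0 else pv A i j) =
          (if (vg A (k + 1)).Adj i j then (1 : ℤ) else 0) + k - (if i = j then k else 0) := by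
        intro j
        by_cases hij : i = j
        · subst hij
          rw [if_pos rfl, if_neg (SimpleGraph.irrefl _), if_pos rfl]
          ring
        · rw [if_neg hij, if_neg hij]
          by_cases h : pv A i j = k + 1
          · rw [if_pos ⟨hij, h⟩, h]
            ring
          · rw [if_neg (fun h' => h h'.2), (hk i j hij).resolve_right h]
            ring
      rw [Finset.sum_congr rfl (fun j _ => e1 j), Finset.sum_sub_distrib, Finset.sum_add_distrib,
        Finset.sum_ite_eq, if_pos (mem_univ _)]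
      simp
      ring
    rw [Finset.sum_congr rfl (fun i _ => e i), Finset.sum_add_distrib, ecnt]
    simp
    ring
  have h3 : ecnt (vg A (k + 1)) = n * (2 * (∑ i, (outDeg A i : ℤ)) - k * (n - 1)) := by
    have := h2.symm.trans h1
    linarith
  rw [h3]
  exact dvd_mul_right _ _

theorem ecnt_compl (G : SimpleGraph (Fin n)) [DecidableRel G.Adj] :
    ecnt Gᶜ = n * (n - 1) - ecnt G := by
  have e : ∀ i, (∑ j, (if Gᶜ.Adj i j then (1 : ℤ) else 0)) =
      (n - 1) - ∑ j, (if G.Adj i j then (1 : ℤ) else 0) := by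
    intro i
    have e1 : ∀ j, (if Gᶜ.Adj i j then (1 : ℤ) else 0) =
        1 - (if i = j then 1 else 0) - (if G.Adj i j then (1 : ℤ) else 0) := by
      intro j
      by_cases hij : i = j
      · subst hij
        rw [if_neg (SimpleGraph.irrefl _), if_pos rfl, if_neg (SimpleGraph.irrefl _)]
        ring
      · rw [if_neg hij]
        by_cases h : G.Adj i j
        · rw [if_neg (fun hc => hc.2 h), if_pos h]
          ring
        · rw [if_pos ⟨hij, h⟩, if_neg h]
          ring
    rw [Finset.sum_congr rfl (fun j _ => e1 j), Finset.sum_sub_distrib, Finset.sum_sub_distrib,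
      Finset.sum_ite_eq, if_pos (mem_univ _)]
    simp
  rw [ecnt, Finset.sum_congr rfl (fun i _ => e i), Finset.sum_sub_distrib, ecnt]
  simp
  ring

/-- **Digraphs with spread strictly between zero and one**: the order is four and the pair values
have one special shape. -/
theorem gap (hn : 2 ≤ n) (hA : ∀ i, ¬ A i i) (h0 : 0 < spreadL (lap A)) (h1 : spreadL (lap A) < 1) :
    n = 4 ∧ ∃ (κ ε : ℤ) (z c a b : Fin n), (ε = 1 ∨ ε = -1) ∧ z ≠ c ∧ z ≠ a ∧ z ≠ b ∧ a ≠ b ∧
      c ≠ a ∧ c ≠ b ∧ (∀ y, y = z ∨ y = c ∨ y = a ∨ y = b) ∧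
      pv A z c = κ ∧ pv A z a = κ ∧ pv A z b = κ ∧ pv A a b = κ ∧ pv A c a = κ + ε ∧
      pv A c b = κ + ε := by
  set p0 : Fin n := ⟨0, by omega⟩ with hp0
  set p1 : Fin n := ⟨1, by omega⟩ with hp1
  have hp : p0 ≠ p1 := by simp [hp0, hp1]
  obtain ⟨⟨i0, j0⟩, hij0, hmin⟩ := Finset.exists_min_image
    ((Finset.univ : Finset (Fin n × Fin n)).filter fun p => p.1 ≠ p.2) (fun p => pv A p.1 p.2)
    ⟨(p0, p1), by rw [Finset.mem_filter]; exact ⟨mem_univ _, hp⟩⟩
  rw [Finset.mem_filter] at hij0
  have hij0' : i0 ≠ j0 := hij0.2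
  set k := pv A i0 j0 with hk
  have hval : ∀ i j, i ≠ j → pv A i j = k ∨ pv A i j = k + 1 := by
    intro i j hij
    have h2 := hmin (i, j) (by rw [Finset.mem_filter]; exact ⟨mem_univ _, hij⟩)
    have h3 := (pv_bounds hA hij).2
    have h4 := (pv_bounds hA hij0').1
    simp only at h2
    have h5 : (pv A i j : ℝ) < (pv A i0 j0 : ℝ) + 2 := by
      rw [spreadL] at h1
      linarith
    have h6 : pv A i j < pv A i0 j0 + 2 := by exact_mod_cast h5
    omega
  have hn3 : 3 ≤ n := by
    by_contra hlt
    have hn2 : n = 2 := by omega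
    have := spread_const hA k (fun i j hij => by
      have h2 : (i = i0 ∧ j = j0) ∨ (i = j0 ∧ j = i0) := by
        subst hn2
        have a1 := i.2
        have a2 := j.2
        have a3 := i0.2
        have a4 := j0.2
        have a5 : (i : ℕ) ≠ j := fun h => hij (Fin.ext h)
        have a6 : (i0 : ℕ) ≠ j0 := fun h => hij0' (Fin.ext h)
        by_cases h : (i : ℕ) = i0
        · left
          refine ⟨Fin.ext h, Fin.ext ?_⟩
          omega
        · right
          refine ⟨Fin.ext ?_, Fin.ext ?_⟩ <;> omega
      rcases h2 with ⟨rfl, rfl⟩ | ⟨rfl, rfl⟩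
      · rfl
      · exact pv_symm A _ _)
    linarith
  have hsmall : Small (vg A (k + 1)) := by
    refine ⟨k - 2 * sSup (realValues (lap A)), k - 2 * sInf (realValues (lap A)), ?_, ?_⟩
    · rw [spreadL] at h1
      linarith
    · intro x hx
      rw [form_vg hA hval x hx]
      obtain ⟨b1, b2⟩ := form_bounds (lap A) x hx
      constructor <;> nlinarith
  have hdvd := ecnt_vg hA hval
  by_cases hiso : ∃ z, ∀ y, ¬ (vg A (k + 1)).Adj z y
  · obtain ⟨z, hz⟩ := hiso
    rcases hsmall.classify hn3 hdvd hz with h2 | ⟨hn4, c, a, b, hzc, hza, hzb, hab, hca, hcb, hnab,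
      hall⟩
    · exfalso
      have := spread_const hA k (fun i j hij => by
        rcases hval i j hij with h3 | h3
        · exact h3
        · exact absurd ⟨hij, h3⟩ (h2 i j))
      linarith
    · refine ⟨hn4, k, 1, z, c, a, b, Or.inl rfl, hzc, hza, hzb, hab, hca.1, hcb.1, hall, ?_, ?_, ?_,
        ?_, hca.2, hcb.2⟩
      · exact (hval z c hzc).resolve_right fun h => hz c ⟨hzc, h⟩
      · exact (hval z a hza).resolve_right fun h => hz a ⟨hza, h⟩
      · exact (hval z b hzb).resolve_right fun h => hz b ⟨hzb, h⟩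
      · exact (hval a b hab).resolve_right fun h => hnab ⟨hab, h⟩
  · push Not at hiso
    obtain ⟨c', -, hcmax⟩ := Finset.exists_max_image (Finset.univ : Finset (Fin n))
      (fun w => (vg A (k + 1)).degree w) ⟨p0, mem_univ _⟩
    have hdom : ∀ y, y ≠ c' → (vg A (k + 1)).Adj c' y := by
      intro y hy
      obtain ⟨w, hw⟩ := hiso y
      exact hsmall.max_adj (fun w => hcmax w (mem_univ w)) hy hw
    have hz : ∀ y, ¬ (vg A (k + 1))ᶜ.Adj c' y := fun y hy => hy.2 (hdom y (Ne.symm hy.1))
    have hdvd' : (n : ℤ) ∣ ecnt (vg A (k + 1))ᶜ := by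
      rw [ecnt_compl]
      exact dvd_sub (dvd_mul_right _ _) hdvd
    have hcval : ∀ i j, i ≠ j → ¬ (vg A (k + 1))ᶜ.Adj i j → pv A i j = k + 1 := by
      intro i j hij h
      rcases hval i j hij with h3 | h3
      · exact absurd ⟨hij, fun h' => by have := h'.2; omega⟩ h
      · exact h3
    have hcval' : ∀ i j, (vg A (k + 1))ᶜ.Adj i j → pv A i j = k := by
      intro i j h
      exact (hval i j h.1).resolve_right fun h' => h.2 ⟨h.1, h'⟩
    rcases hsmall.compl.classify hn3 hdvd' hz with h2 | ⟨hn4, c, a, b, hzc, hza, hzb, hab, hca, hcb,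
      hnab, hall⟩
    · exfalso
      have := spread_const hA (k + 1) (fun i j hij => hcval i j hij (h2 i j))
      linarith
    · refine ⟨hn4, k + 1, -1, c', c, a, b, Or.inr rfl, hzc, hza, hzb, hab, hca.1, hcb.1, hall,
        hcval _ _ hzc (hz c), hcval _ _ hza (hz a), hcval _ _ hzb (hz b), hcval _ _ hab hnab, ?_, ?_⟩
      · rw [hcval' _ _ hca]; ring
      · rw [hcval' _ _ hcb]; ring

end

end Pool.Agent.Q105.Poly
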