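import Pool.Agent.Q105.Poly.Ends
import Pool.Agent.Q105.Poly.Gap

/-!
# No polygonal digraph has Laplacian spread strictly between zero and one
-/

namespace Pool.Agent.Q105.Poly

open Matrix

variable {n : ℕ} {A : Fin n → Fin n → Prop} [DecidableRel A]

theorem lap_row (i : Fin n) : ∑ j, lap A i j = 0 := by
  have e : ∀ j, lap A i j = (if i = j then (outDeg A i : ℤ) else 0) - arc A i j := fun j => rfl
  rw [Finset.sum_congr rfl (fun j _ => e j), Finset.sum_sub_distrib, Finset.sum_ite_eq,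
    if_pos (Finset.mem_univ _), outDeg_eq, sub_self]

theorem lap_mulVec (x : Fin n → ℂ) (i : Fin n) :
    ((lap A).map (Int.cast : ℤ → ℂ) *ᵥ x) i =
      (outDeg A i : ℂ) * x i - ∑ j, (arc A i j : ℂ) * x j := by
  rw [mulVec, dotProduct]
  have e : ∀ j, (lap A).map (Int.cast : ℤ → ℂ) i j * x j =
      (if i = j then (outDeg A i : ℂ) * x j else 0) - (arc A i j : ℂ) * x j := by
    intro j
    rw [Matrix.map_apply, lap, arc]
    split_ifs <;> push_cast <;> ring
  rw [Finset.sum_congr rfl (fun j _ => e j), Finset.sum_sub_distrib, Finset.sum_ite_eq,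
    if_pos (Finset.mem_univ _)]

theorem lapH_mulVec (x : Fin n → ℂ) (i : Fin n) :
    (((lap A).map (Int.cast : ℤ → ℂ))ᴴ *ᵥ x) i =
      (outDeg A i : ℂ) * x i - ∑ j, (arc A j i : ℂ) * x j := by
  rw [mulVec, dotProduct]
  have e : ∀ j, ((lap A).map (Int.cast : ℤ → ℂ))ᴴ i j * x j =
      (if i = j then (outDeg A i : ℂ) * x j else 0) - (arc A j i : ℂ) * x j := by
    intro j
    rw [Matrix.conjTranspose_apply, Matrix.map_apply, Complex.star_def, map_intCast,
      lap, arc]
    by_cases h : i = j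
    · subst h
      rw [if_pos rfl, if_pos rfl]
      push_cast
      ring
    · rw [if_neg h, if_neg (Ne.symm h)]
      push_cast
      ring
  rw [Finset.sum_congr rfl (fun j _ => e j), Finset.sum_sub_distrib, Finset.sum_ite_eq,
    if_pos (Finset.mem_univ _)]

/-- The eigenvector equations in terms of the pair values. -/
theorem pv_equation (hA : ∀ i, ¬ A i i) (x : Fin n → ℂ) (μ m : ℂ) (hx : ∑ i, x i = 0)
    (h1 : ((lap A).map (Int.cast : ℤ → ℂ))ᴴ *ᵥ x = star μ • x)
    (h2 : ∀ i, ((lap A).map (Int.cast : ℤ → ℂ) *ᵥ x) i = μ * x i + m) (i : Fin n) :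
    ∑ j, (if i = j then 0 else (pv A i j : ℂ)) * x j =
      -(2 * (μ.re : ℂ)) * x i + (∑ j, (outDeg A j : ℂ) * x j - m) := by
  have h3 := h2 i
  rw [lap_mulVec] at h3
  have h4 := congrFun h1 i
  rw [lapH_mulVec, Pi.smul_apply, smul_eq_mul] at h4
  have e : ∀ j, (if i = j then 0 else (pv A i j : ℂ)) * x j =
      (outDeg A i : ℂ) * x j + (outDeg A j : ℂ) * x j + (arc A i j : ℂ) * x j +
        (arc A j i : ℂ) * x j - (if i = j then 2 * ((outDeg A i : ℂ) * x j) else 0) := by
    intro j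
    by_cases h : i = j
    · subst h
      rw [if_pos rfl, if_pos rfl, arc, if_neg (hA i)]
      push_cast
      ring
    · rw [if_neg h, if_neg h, pv]
      push_cast
      ring
  rw [Finset.sum_congr rfl (fun j _ => e j), Finset.sum_sub_distrib, Finset.sum_add_distrib,
    Finset.sum_add_distrib, Finset.sum_add_distrib, ← Finset.mul_sum, hx, Finset.sum_ite_eq,
    if_pos (Finset.mem_univ _)]
  have h5 : μ + star μ = 2 * (μ.re : ℂ) := by
    rw [Complex.star_def, Complex.add_conj]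
    push_cast
    ring
  linear_combination -h3 - h4 - x i * h5

/-- Sums over four labelled vertices. -/
theorem sum_four {M : Type*} [AddCommMonoid M] {z c a b : Fin n} (hzc : z ≠ c) (hza : z ≠ a)
    (hzb : z ≠ b) (hab : a ≠ b) (hca : c ≠ a) (hcb : c ≠ b)
    (hall : ∀ y, y = z ∨ y = c ∨ y = a ∨ y = b) (f : Fin n → M) :
    ∑ y, f y = f z + f c + f a + f b := by
  have h : (Finset.univ : Finset (Fin n)) = {z, c, a, b} := by
    ext y
    simp only [Finset.mem_univ, Finset.mem_insert, Finset.mem_singleton, true_iff]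
    exact hall y
  rw [h, Finset.sum_insert, Finset.sum_insert, Finset.sum_insert, Finset.sum_singleton]
  · rw [← add_assoc, ← add_assoc]
  · simp [hab]
  · simp [hca, hcb]
  · simp [hzc, hza, hzb]

/-- The exceptional digraphs of order four are not polygonal. -/
theorem not_four (hA : ∀ i, ¬ A i i) {κ ε : ℤ} {z c a b : Fin n} (hε : ε = 1 ∨ ε = -1)
    (hzc : z ≠ c) (hza : z ≠ a) (hzb : z ≠ b) (hab : a ≠ b) (hca : c ≠ a) (hcb : c ≠ b)
    (hall : ∀ y, y = z ∨ y = c ∨ y = a ∨ y = b)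
    (v1 : pv A z c = κ) (v2 : pv A z a = κ) (v3 : pv A z b = κ) (v4 : pv A a b = κ)
    (v5 : pv A c a = κ + ε) (v6 : pv A c b = κ + ε) (x : Fin n → ℂ) (μ m : ℂ) (hx0 : x ≠ 0)
    (hx : ∑ i, x i = 0) (hμ : μ.re = sInf (realValues (lap A)))
    (h1 : ((lap A).map (Int.cast : ℤ → ℂ))ᴴ *ᵥ x = star μ • x)
    (h2 : ∀ i, ((lap A).map (Int.cast : ℤ → ℂ) *ᵥ x) i = μ * x i + m) : False := by
  have hs : ∀ f : Fin n → ℂ, ∑ y, f y = f z + f c + f a + f b := fun f =>
    sum_four hzc hza hzb hab hca hcb hall f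
  have hsr : ∀ f : Fin n → ℝ, ∑ y, f y = f z + f c + f a + f b := fun f =>
    sum_four hzc hza hzb hab hca hcb hall f
  have hE := pv_equation hA x μ m hx h1 h2
  set C : ℂ := ∑ j, (outDeg A j : ℂ) * x j - m with hC
  have w1 : pv A c z = κ := by rw [pv_symm]; exact v1
  have w2 : pv A a z = κ := by rw [pv_symm]; exact v2
  have w3 : pv A b z = κ := by rw [pv_symm]; exact v3
  have w4 : pv A b a = κ := by rw [pv_symm]; exact v4
  have w5 : pv A a c = κ + ε := by rw [pv_symm]; exact v5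
  have w6 : pv A b c = κ + ε := by rw [pv_symm]; exact v6
  have Ez := hE z
  have Ec := hE c
  have Ea := hE a
  have Eb := hE b
  rw [hs, if_pos rfl, if_neg hzc, if_neg hza, if_neg hzb, v1, v2, v3] at Ez
  rw [hs, if_neg (Ne.symm hzc), if_pos rfl, if_neg hca, if_neg hcb, w1, v5, v6] at Ec
  rw [hs, if_neg (Ne.symm hza), if_neg (Ne.symm hca), if_pos rfl, if_neg hab, w2, w5, v4] at Ea
  rw [hs, if_neg (Ne.symm hzb), if_neg (Ne.symm hcb), if_neg (Ne.symm hab), if_pos rfl, w3, w6,
    w4] at Eb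
  rw [hs] at hx
  push_cast at Ez Ec Ea Eb
  have hε2 : (ε : ℝ) * ε = 1 := by
    rcases hε with h | h <;> rw [h] <;> norm_num
  have hε2c : (ε : ℂ) * ε = 1 := by
    rcases hε with h | h <;> rw [h] <;> norm_num
  set r : ℝ := μ.re with hr
  set θ : ℝ := ε * (κ - 2 * r) with hθ
  -- the sign of θ
  have hθ0 : θ ≠ 0 := by
    rcases hε with h | h
    · -- test vector
      have h3 := (form_bounds (lap A) (fun y => if y = z then -2 else if y = b then 0 else 1)
        (by rw [hsr]; simp [hzb, hzb.symm, hzc.symm, hza.symm, hcb, hab]; norm_num)).1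
      have h4 := two_form A (fun y => if y = z then (-2 : ℝ) else if y = b then 0 else 1)
        (by rw [hsr]; simp [hzb, hzb.symm, hzc.symm, hza.symm, hcb, hab]; norm_num) hA
      rw [hsr, hsr, hsr, hsr, hsr] at h4
      rw [hsr] at h3
      simp [hzb, hzb.symm, hzc, hza, hca, hzc.symm, hza.symm, hcb, hab, hca.symm, hcb.symm,
        hab.symm, v1, v2, v3, v4, v5, v6, w1, w2, w3, w4, w5, w6, h] at h4
      simp [hzb, hzb.symm, hzc, hza, hca, hzc.symm, hza.symm, hcb, hab, hca.symm, hcb.symm,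
        hab.symm] at h3
      rw [← hμ] at h3
      rw [hθ, h]
      push_cast
      intro h5
      have h6 : (κ : ℝ) = 2 * r := by linarith
      rw [h6] at h4
      linarith
    · have h3 := (pv_bounds hA hca).1
      rw [v5, ← hμ, h] at h3
      push_cast at h3
      rw [hθ, h]
      push_cast
      intro h5
      linarith
  have k0 : (κ : ℝ) = 2 * r + ε * θ := by
    rw [hθ]
    linear_combination (-((κ : ℝ) - 2 * r)) * hε2
  have k1 : (κ : ℂ) = 2 * (r : ℂ) + ε * (θ : ℂ) := by exact_mod_cast congrArg (fun t : ℝ => (t : ℂ)) k0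
  have q1 : x c = θ * (x a - x z) := by
    linear_combination (ε : ℂ) * Ea - (ε : ℂ) * Ez + (ε : ℂ) * (x a - x z) * k1 -
      (x c - θ * (x a - x z)) * hε2c
  have q2 : x c = θ * (x b - x z) := by
    linear_combination (ε : ℂ) * Eb - (ε : ℂ) * Ez + (ε : ℂ) * (x b - x z) * k1 -
      (x c - θ * (x b - x z)) * hε2c
  have q3 : x a + x b = θ * (x c - x z) := by
    linear_combination (ε : ℂ) * Ec - (ε : ℂ) * Ez + (ε : ℂ) * (x c - x z) * k1 -
      (x a + x b - θ * (x c - x z)) * hε2c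
  have hθc : (θ : ℂ) ≠ 0 := by exact_mod_cast hθ0
  have q4 : x b = x a := by
    have : (θ : ℂ) * (x b - x a) = 0 := by linear_combination q1 - q2
    rcases mul_eq_zero.1 this with h | h
    · exact absurd h hθc
    · exact sub_eq_zero.1 h
  rw [q4] at q3 hx
  by_cases hX : x z = 0
  · rw [hX] at q1 q3 hx
    have e1 : x a = 0 := by
      linear_combination (-1 / 2 : ℂ) * q3 + (-1 / 2 : ℂ) * θ * hx + hx - q1 +
        (0 : ℂ) * q1
    have e2 : x c = 0 := by
      rw [e1] at q1
      rw [q1]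
      ring
    apply hx0
    ext y
    rcases hall y with h | h | h | h
    · rw [h, hX]; rfl
    · rw [h, e2]; rfl
    · rw [h, e1]; rfl
    · rw [h, q4, e1]; rfl
  have q5 : x a = (2 * θ - 1) * x z := by
    linear_combination hx - q1 - (1 / 2 : ℂ) * q3 - (1 / 2 : ℂ) * θ * hx
  have q6 : x c = (1 - 4 * θ) * x z := by
    linear_combination hx - 2 * q5
  have q7 : (2 * (θ : ℂ) ^ 2 + 2 * θ - 1) * x z = 0 := by
    linear_combination ((θ : ℂ) + 2) * ((1 / 2 : ℂ) * q3 + (1 / 2 : ℂ) * θ * hx) -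
      (1 + (θ : ℂ)) * (hx - q1)
  have q8 : 2 * θ ^ 2 + 2 * θ - 1 = 0 := by
    have h3 : (2 * (θ : ℂ) ^ 2 + 2 * θ - 1) = 0 := by
      rcases mul_eq_zero.1 q7 with h | h
      · exact h
      · exact absurd h hX
    exact_mod_cast h3
  -- the equation of the transposed matrix at `z`
  have t1 := congrFun h1 z
  rw [lapH_mulVec, Pi.smul_apply, smul_eq_mul, hs, q4, q5, q6] at t1
  have t0 : arc A z z = 0 := by rw [arc, if_neg (hA z)]
  rw [t0] at t1
  have t2 : star μ = (outDeg A z : ℂ) - (arc A c z : ℂ) * (1 - 4 * θ) -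
      ((arc A a z : ℂ) + (arc A b z : ℂ)) * (2 * θ - 1) := by
    apply mul_right_cancel₀ hX
    push_cast at t1
    linear_combination -t1
  have t3 : r = (outDeg A z : ℝ) - (arc A c z : ℝ) * (1 - 4 * θ) -
      ((arc A a z : ℝ) + (arc A b z : ℝ)) * (2 * θ - 1) := by
    have h3 := congrArg Complex.re t2
    have h4 : (star μ).re = r := by rw [Complex.star_def, Complex.conj_re]
    rw [h4] at h3
    have h5 : ((outDeg A z : ℂ) - (arc A c z : ℂ) * (1 - 4 * θ) -
      ((arc A a z : ℂ) + (arc A b z : ℂ)) * (2 * θ - 1)) = (((outDeg A z : ℝ) -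
        (arc A c z : ℝ) * (1 - 4 * θ) -
        ((arc A a z : ℝ) + (arc A b z : ℝ)) * (2 * θ - 1) : ℝ) : ℂ) := by
      push_cast
      ring
    rw [h5, Complex.ofReal_re] at h3
    exact h3
  -- integers
  set N : ℤ := 8 * arc A c z - 4 * (arc A a z + arc A b z) + ε with hN
  set M : ℤ := κ - 2 * outDeg A z + 2 * arc A c z - 2 * (arc A a z + arc A b z) with hM
  have hNM : (N : ℝ) * θ = M := by
    rw [hN, hM]
    push_cast
    linear_combination -k0 - 2 * t3
  have hint : 2 * M ^ 2 + 2 * M * N - N ^ 2 = 0 := by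
    have h3 : (2 * (M : ℝ) ^ 2 + 2 * M * N - (N : ℝ) ^ 2) = 0 := by
      rw [← hNM]
      linear_combination (N : ℝ) ^ 2 * q8
    exact_mod_cast h3
  have hodd : N % 2 = 1 := by
    rcases hε with h | h <;> omega
  have h3 : N ^ 2 % 2 = 0 := by
    have : N ^ 2 = 2 * (M ^ 2 + M * N) := by linarith
    omega
  rw [pow_two, Int.mul_emod, hodd] at h3
  exact absurd h3 (by decide)

end Pool.Agent.Q105.Poly
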