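import Pool.Agent.Q105.Poly.Exist

/-!
# A polygonal digraph of order nine with Laplacian spread one
-/

namespace Pool.Agent.Q105.Poly

open Matrix

/-- The adjacency matrix. -/
def adj9 : Matrix (Fin 9) (Fin 9) ℕ :=
  !![0, 0, 1, 0, 1, 1, 0, 0, 1;
     0, 0, 0, 1, 0, 0, 1, 1, 1;
     0, 1, 0, 0, 1, 1, 0, 0, 1;
     1, 0, 0, 0, 0, 0, 1, 1, 1;
     0, 1, 0, 1, 0, 1, 1, 0, 0;
     0, 1, 0, 1, 1, 0, 0, 1, 0;
     1, 0, 1, 0, 0, 1, 0, 1, 0;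
     1, 0, 1, 0, 1, 0, 1, 0, 0;
     0, 0, 0, 0, 1, 1, 1, 1, 0]

/-- The digraph of order nine. -/
def G9 (i j : Fin 9) : Prop := adj9 i j = 1

instance : DecidableRel G9 := fun i j => inferInstanceAs (Decidable (adj9 i j = 1))

/-- Its Laplacian. -/
def L9 : Matrix (Fin 9) (Fin 9) ℤ :=
  !![4, 0, -1, 0, -1, -1, 0, 0, -1;
     0, 4, 0, -1, 0, 0, -1, -1, -1;
     0, -1, 4, 0, -1, -1, 0, 0, -1;
     -1, 0, 0, 4, 0, 0, -1, -1, -1;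
     0, -1, 0, -1, 4, -1, -1, 0, 0;
     0, -1, 0, -1, -1, 4, 0, -1, 0;
     -1, 0, -1, 0, 0, -1, 4, -1, 0;
     -1, 0, -1, 0, -1, 0, -1, 4, 0;
     0, 0, 0, 0, -1, -1, -1, -1, 4]

theorem lap_G9 : lap G9 = L9 := by decide +kernel

/-- The form `a^T L b`. -/
theorem bil (a b : Fin 9 → ℝ) : ∑ i, ∑ j, (L9 i j : ℝ) * (a i * b j) =
    4 * (a 0 * b 0 + a 1 * b 1 + a 2 * b 2 + a 3 * b 3 + a 4 * b 4 + a 5 * b 5 + a 6 * b 6 +
      a 7 * b 7 + a 8 * b 8) -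
    (a 0 * (b 2 + b 4 + b 5 + b 8) + a 1 * (b 3 + b 6 + b 7 + b 8) +
      a 2 * (b 1 + b 4 + b 5 + b 8) + a 3 * (b 0 + b 6 + b 7 + b 8) +
      a 4 * (b 1 + b 3 + b 5 + b 6) + a 5 * (b 1 + b 3 + b 4 + b 7) +
      a 6 * (b 0 + b 2 + b 5 + b 7) + a 7 * (b 0 + b 2 + b 4 + b 6) +
      a 8 * (b 4 + b 5 + b 6 + b 7)) := by
  simp only [Fin.sum_univ_succ, Fin.sum_univ_zero, L9]
  simp [Matrix.of_apply, Matrix.cons_val_zero]
  ring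

/-- The squared norm. -/
theorem nrm (a : Fin 9 → ℝ) : ∑ i, a i ^ 2 = a 0 ^ 2 + a 1 ^ 2 + a 2 ^ 2 + a 3 ^ 2 + a 4 ^ 2 +
    a 5 ^ 2 + a 6 ^ 2 + a 7 ^ 2 + a 8 ^ 2 := by
  simp [Fin.sum_univ_succ]
  ring

theorem last (a : Fin 9 → ℝ) (ha : ∑ i, a i = 0) :
    a 8 = -(a 0 + a 1 + a 2 + a 3 + a 4 + a 5 + a 6 + a 7) := by
  have h : ∑ i, a i = a 0 + a 1 + a 2 + a 3 + a 4 + a 5 + a 6 + a 7 + a 8 := by
    simp [Fin.sum_univ_succ]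
    ring
  rw [h] at ha
  linarith

theorem low (a : Fin 9 → ℝ) (ha : ∑ i, a i = 0) :
    4 * ∑ i, a i ^ 2 ≤ ∑ i, ∑ j, (L9 i j : ℝ) * (a i * a j) := by
  rw [bil, nrm, last a ha]
  nlinarith [sq_nonneg (a 0 + a 1), sq_nonneg (a 2 + a 3), sq_nonneg (a 4 - a 5),
    sq_nonneg (a 6 - a 7), sq_nonneg (a 0 + a 1 + a 2 + a 3 + a 4 + a 5 + a 6 + a 7)]

theorem upp (a : Fin 9 → ℝ) (ha : ∑ i, a i = 0) :
    ∑ i, ∑ j, (L9 i j : ℝ) * (a i * a j) ≤ 5 * ∑ i, a i ^ 2 := by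
  rw [bil, nrm, last a ha]
  nlinarith [sq_nonneg (a 0 - a 1), sq_nonneg (a 2 - a 3), sq_nonneg (a 4 + a 5),
    sq_nonneg (a 6 + a 7), sq_nonneg (a 0 + a 1 + a 2 + a 3 + a 4 + a 5 + a 6 + a 7)]

theorem sqs (s P Q : ℝ) (hs : s ^ 2 = 5) (hs0 : 0 ≤ s) :
    0 ≤ s * P ^ 2 - 10 * P * Q + 5 * (s * Q ^ 2) := by
  have h : s * P ^ 2 - 10 * P * Q + 5 * (s * Q ^ 2) = s * (P - s * Q) ^ 2 := by
    linear_combination (2 * P * Q - s * Q ^ 2) * hs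
  rw [h]
  exact mul_nonneg hs0 (sq_nonneg _)

theorem posR (s p q r t : ℝ) (h1 : 22 / 10 ≤ s) (h2 : s ≤ 23 / 10) :
    0 ≤ (s + 1) * (p ^ 2 + q ^ 2) + 9 * (s + 1) * (r ^ 2 + t ^ 2) + 2 * (s - 1) * (p * r + q * t) +
      16 * (p * t - q * r) := by
  have e1 : 0 ≤ (22 / 10 + 1 : ℝ) * (p ^ 2 + q ^ 2) + 9 * (22 / 10 + 1) * (r ^ 2 + t ^ 2) +
      2 * (22 / 10 - 1) * (p * r + q * t) + 16 * (p * t - q * r) := by
    nlinarith [sq_nonneg (p + 3 / 8 * r + 5 / 2 * t), sq_nonneg (q + 3 / 8 * t - 5 / 2 * r),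
      sq_nonneg r, sq_nonneg t]
  have e2 : 0 ≤ (23 / 10 + 1 : ℝ) * (p ^ 2 + q ^ 2) + 9 * (23 / 10 + 1) * (r ^ 2 + t ^ 2) +
      2 * (23 / 10 - 1) * (p * r + q * t) + 16 * (p * t - q * r) := by
    nlinarith [sq_nonneg (p + 13 / 33 * r + 80 / 33 * t),
      sq_nonneg (q + 13 / 33 * t - 80 / 33 * r), sq_nonneg r, sq_nonneg t]
  nlinarith [mul_nonneg (sub_nonneg.2 h2) e1, mul_nonneg (sub_nonneg.2 h1) e2]

set_option maxHeartbeats 4000000 in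
theorem phi (a b : Fin 9 → ℝ) (ha : ∑ i, a i = 0) (hb : ∑ i, b i = 0) (s : ℝ) (hs : s ^ 2 = 5)
    (hs0 : 0 ≤ s) :
    (∑ i, ∑ j, (L9 i j : ℝ) * (a i * b j)) - (∑ i, ∑ j, (L9 i j : ℝ) * (b i * a j)) ≤
      s * (∑ i, a i ^ 2 + ∑ i, b i ^ 2) -
        (s - 1) * ((∑ i, ∑ j, (L9 i j : ℝ) * (a i * a j)) +
          (∑ i, ∑ j, (L9 i j : ℝ) * (b i * b j)) - 4 * (∑ i, a i ^ 2 + ∑ i, b i ^ 2)) := by
  have h1 : (22 / 10 : ℝ) ≤ s := by nlinarith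
  have h2 : s ≤ 23 / 10 := by nlinarith
  rw [bil, bil, bil, bil, nrm, nrm, last a ha, last b hb]
  generalize a 0 = a0, a 1 = a1, a 2 = a2, a 3 = a3, a 4 = a4, a 5 = a5, a 6 = a6, a 7 = a7
  generalize b 0 = b0, b 1 = b1, b 2 = b2, b 3 = b3, b 4 = b4, b 5 = b5, b 6 = b6, b 7 = b7
  have t1 : 0 ≤ s * ((2 * a0 - 2 * a1 - 2 * a2 + 2 * a3 + a4 + a5 - a6 - a7) ^ 2 +
      (2 * b0 - 2 * b1 - 2 * b2 + 2 * b3 + b4 + b5 - b6 - b7) ^ 2) := by positivity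
  have t2 := sqs s (2 * (a4 + a5 - a6 - a7) + (a2 - a3 - a0 + a1)) (b0 - b1 + b2 - b3) hs hs0
  have t3 := sqs s (2 * (b4 + b5 - b6 - b7) + (b2 - b3 - b0 + b1)) (-(a0 - a1 + a2 - a3)) hs hs0
  have t4 : 0 ≤ (a0 + a1 - a2 - a3) ^ 2 + (b0 + b1 - b2 - b3) ^ 2 := by positivity
  have t5 : 0 ≤ ((a4 - a5) + (b6 - b7)) ^ 2 + ((b4 - b5) - (a6 - a7)) ^ 2 := by positivity
  have t6 := posR s (a0 + a1 + a2 + a3 - a4 - a5 - a6 - a7) (b0 + b1 + b2 + b3 - b4 - b5 - b6 - b7)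
    (-(a0 + a1 + a2 + a3 + a4 + a5 + a6 + a7)) (-(b0 + b1 + b2 + b3 + b4 + b5 + b6 + b7)) h1 h2
  linarith [t1, t2, t3, t4, t5, t6]

/-- Eigenvectors. -/
noncomputable def ev (s : ℝ) : Fin 4 → Fin 9 → ℂ :=
  ![![⟨-1, s⟩, ⟨1, -s⟩, ⟨1, s⟩, ⟨-1, -s⟩, ⟨2, 0⟩, ⟨2, 0⟩, ⟨-2, 0⟩, ⟨-2, 0⟩, ⟨0, 0⟩],
    ![⟨-1, -s⟩, ⟨1, s⟩, ⟨1, -s⟩, ⟨-1, s⟩, ⟨2, 0⟩, ⟨2, 0⟩, ⟨-2, 0⟩, ⟨-2, 0⟩, ⟨0, 0⟩],
    ![⟨0, 0⟩, ⟨0, 0⟩, ⟨0, 0⟩, ⟨0, 0⟩, ⟨1, 0⟩, ⟨-1, 0⟩, ⟨0, -1⟩, ⟨0, 1⟩, ⟨0, 0⟩],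
    ![⟨0, 0⟩, ⟨0, 0⟩, ⟨0, 0⟩, ⟨0, 0⟩, ⟨1, 0⟩, ⟨-1, 0⟩, ⟨0, 1⟩, ⟨0, -1⟩, ⟨0, 0⟩]]

/-- Eigenvalues. -/
noncomputable def ew (s : ℝ) : Fin 4 → ℂ := ![⟨4, s⟩, ⟨4, -s⟩, ⟨5, 1⟩, ⟨5, -1⟩]

/-- Squared norms of the eigenvectors. -/
def sn : Fin 4 → ℝ := ![40, 40, 4, 4]

theorem ev_orth (s : ℝ) (hs : s ^ 2 = 5) (j k : Fin 4) :
    star (ev s j) ⬝ᵥ ev s k = if j = k then ((sn j : ℝ) : ℂ) else 0 := by
  fin_cases j <;> fin_cases k <;>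
    (rw [Complex.ext_iff]; constructor <;>
      simp [ev, sn, dotProduct, Fin.sum_univ_succ] <;> nlinarith [hs])

theorem ev_eig (s : ℝ) (hs : s ^ 2 = 5) (k : Fin 4) :
    L9.map (Int.cast : ℤ → ℂ) *ᵥ ev s k = ew s k • ev s k := by
  ext i
  fin_cases k <;> fin_cases i <;>
    (rw [Complex.ext_iff]; constructor <;>
      simp [ev, ew, L9, Matrix.mulVec, dotProduct, Fin.sum_univ_succ] <;> nlinarith [hs])

theorem ev_sum (s : ℝ) (k : Fin 4) : ∑ i, ev s k i = 0 := by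
  fin_cases k <;>
    (rw [Complex.ext_iff]; constructor <;>
      simp [ev, Fin.sum_univ_succ])

theorem ev_ne (s : ℝ) (k : Fin 4) : ev s k ≠ 0 := by
  intro h
  have h4 := congrFun h 4
  rw [Complex.ext_iff] at h4
  fin_cases k <;> simp [ev] at h4

/-- The trapezoid with vertices `4 ± √5 i` and `5 ± i`. -/
def trap (s : ℝ) : Set ℂ :=
  {z | 4 ≤ z.re ∧ z.re ≤ 5 ∧ z.im ≤ s - (s - 1) * (z.re - 4) ∧ -z.im ≤ s - (s - 1) * (z.re - 4)}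

theorem trap_convex (s : ℝ) : Convex ℝ (trap s) := by
  intro x hx y hy a b ha hb hab
  obtain ⟨h1, h2, h3, h4⟩ := hx
  obtain ⟨g1, g2, g3, g4⟩ := hy
  have e : b = 1 - a := by linarith
  subst e
  simp only [trap, Set.mem_ofPred_eq, Complex.add_re, Complex.add_im, Complex.real_smul,
    Complex.re_ofReal_mul, Complex.im_ofReal_mul]
  refine ⟨?_, ?_, ?_, ?_⟩
  · nlinarith [mul_nonneg ha (sub_nonneg.2 h1), mul_nonneg hb (sub_nonneg.2 g1)]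
  · nlinarith [mul_nonneg ha (sub_nonneg.2 h2), mul_nonneg hb (sub_nonneg.2 g2)]
  · nlinarith [mul_nonneg ha (sub_nonneg.2 h3), mul_nonneg hb (sub_nonneg.2 g3)]
  · nlinarith [mul_nonneg ha (sub_nonneg.2 h4), mul_nonneg hb (sub_nonneg.2 g4)]

/-- Every point of the trapezoid is a convex combination of the four eigenvalues. -/
theorem trap_comb (s : ℝ) (hs0 : 1 ≤ s) (z : ℂ) (hz : z ∈ trap s) :
    ∃ w : Fin 4 → ℝ, (∀ k, 0 ≤ w k) ∧ ∑ k, w k = 1 ∧ (∑ k, (w k : ℂ) * ew s k) = z := by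
  obtain ⟨h1, h2, h3, h4⟩ := hz
  set x : ℝ := z.re - 4 with hx
  have hx0 : 0 ≤ x := by linarith
  have hx1 : x ≤ 1 := by linarith
  set H : ℝ := s - (s - 1) * x with hH
  have hH0 : 0 < H := by nlinarith
  set r : ℝ := z.im / H with hr
  have hrH : r * H = z.im := div_mul_cancel₀ _ hH0.ne'
  have hr1 : r ≤ 1 := by
    rw [hr, div_le_one hH0]; exact h3
  have hr2 : -1 ≤ r := by
    rw [hr, le_div_iff₀ hH0]; linarith
  refine ⟨![(1 - x) * (1 + r) / 2, (1 - x) * (1 - r) / 2, x * (1 + r) / 2, x * (1 - r) / 2],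
    ?_, ?_, ?_⟩
  · intro k
    have a1 : 0 ≤ 1 - x := by linarith
    have a2 : 0 ≤ 1 + r := by linarith
    have a3 : 0 ≤ 1 - r := by linarith
    fin_cases k
    · change 0 ≤ (1 - x) * (1 + r) / 2
      positivity
    · change 0 ≤ (1 - x) * (1 - r) / 2
      positivity
    · change 0 ≤ x * (1 + r) / 2
      positivity
    · change 0 ≤ x * (1 - r) / 2
      positivity
  · simp [Fin.sum_univ_succ]
    ring
  · rw [Complex.ext_iff]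
    constructor
    · simp [Fin.sum_univ_succ, ew]
      linarith
    · simp [Fin.sum_univ_succ, ew]
      rw [← hrH, hH]
      ring

theorem trap_subset_Wr (s : ℝ) (hs : s ^ 2 = 5) (hs0 : 1 ≤ s) : trap s ⊆ Wr L9 := by
  intro z hz
  obtain ⟨w, hw0, hw1, hwz⟩ := trap_comb s hs0 z hz
  have hpos : ∀ k, 0 < sn k := by
    intro k
    fin_cases k <;> norm_num [sn]
  have hcc : ∀ k, (((Real.sqrt (sn k))⁻¹ : ℝ) : ℂ) * (((Real.sqrt (sn k))⁻¹ : ℝ) : ℂ) *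
      ((sn k : ℝ) : ℂ) = 1 := by
    intro k
    rw [← Complex.ofReal_mul, ← Complex.ofReal_mul, ← mul_inv, Real.mul_self_sqrt (hpos k).le,
      inv_mul_cancel₀ (hpos k).ne', Complex.ofReal_one]
  rw [← hwz]
  apply comb L9 (fun k => (((Real.sqrt (sn k))⁻¹ : ℝ) : ℂ) • ev s k) (ew s) ?_ ?_ ?_ w hw0 hw1
  · intro j k
    rw [star_smul, smul_dotProduct, dotProduct_smul, ev_orth s hs, Complex.star_def,
      Complex.conj_ofReal, smul_eq_mul, smul_eq_mul]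
    by_cases h : j = k
    · subst h
      rw [if_pos rfl, if_pos rfl, ← mul_assoc]
      exact hcc j
    · rw [if_neg h, if_neg h, mul_zero, mul_zero]
  · intro k
    rw [mulVec_smul, ev_eig s hs, smul_comm]
  · intro k
    simp only [Pi.smul_apply, smul_eq_mul]
    rw [← Finset.mul_sum, ev_sum, mul_zero]

theorem Wr_subset_trap (s : ℝ) (hs : s ^ 2 = 5) (hs0 : 0 ≤ s) : Wr L9 ⊆ trap s := by
  rintro z ⟨x, hx0, hx1, rfl⟩
  have ha : ∑ i, (x i).re = 0 := by rw [← Complex.re_sum, hx0, Complex.zero_re]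
  have hb : ∑ i, (x i).im = 0 := by rw [← Complex.im_sum, hx0, Complex.zero_im]
  have hN : ∑ i, (x i).re ^ 2 + ∑ i, (x i).im ^ 2 = 1 := by
    rw [← hx1, ← Finset.sum_add_distrib]
    refine Finset.sum_congr rfl fun i _ => ?_
    rw [← Complex.normSq_eq_norm_sq, Complex.normSq_apply]
    ring
  have hre : (star x ⬝ᵥ (L9.map (Int.cast : ℤ → ℂ) *ᵥ x)).re =
      (∑ i, ∑ j, (L9 i j : ℝ) * ((x i).re * (x j).re)) +
        (∑ i, ∑ j, (L9 i j : ℝ) * ((x i).im * (x j).im)) := by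
    rw [re_form, ← Finset.sum_add_distrib]
    refine Finset.sum_congr rfl fun i _ => ?_
    rw [← Finset.sum_add_distrib]
    refine Finset.sum_congr rfl fun j _ => ?_
    ring
  have him : (star x ⬝ᵥ (L9.map (Int.cast : ℤ → ℂ) *ᵥ x)).im =
      (∑ i, ∑ j, (L9 i j : ℝ) * ((x i).re * (x j).im)) -
        (∑ i, ∑ j, (L9 i j : ℝ) * ((x i).im * (x j).re)) := by
    rw [im_form, ← Finset.sum_sub_distrib]
    refine Finset.sum_congr rfl fun i _ => ?_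
    rw [← Finset.sum_sub_distrib]
    refine Finset.sum_congr rfl fun j _ => ?_
    ring
  have l1 := low (fun i => (x i).re) ha
  have l2 := low (fun i => (x i).im) hb
  have u1 := upp (fun i => (x i).re) ha
  have u2 := upp (fun i => (x i).im) hb
  have p1 := phi (fun i => (x i).re) (fun i => (x i).im) ha hb s hs hs0
  have p2 := phi (fun i => (x i).im) (fun i => (x i).re) hb ha s hs hs0
  have hN' : ∑ i, (x i).im ^ 2 + ∑ i, (x i).re ^ 2 = 1 := by rw [add_comm]; exact hN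
  rw [hN] at p1
  rw [hN'] at p2
  refine ⟨?_, ?_, ?_, ?_⟩
  · rw [hre]; linarith
  · rw [hre]; linarith
  · rw [hre, him]; linarith
  · rw [hre, him]; linarith

/-- The restricted numerical range of the digraph of order nine is the convex hull of the
eigenvalues of its compression. -/
theorem polygonal9 (Q : Matrix (Fin 9) (Fin (9 - 1)) ℂ) (hQ : IsRestrictor Q) :
    Wr L9 = convexHull ℝ (spectrum ℂ (Qᴴ * L9.map (Int.cast : ℤ → ℂ) * Q)) := by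
  set s : ℝ := Real.sqrt 5 with hsd
  have hs : s ^ 2 = 5 := Real.sq_sqrt (by norm_num)
  have hs0 : 0 ≤ s := Real.sqrt_nonneg 5
  have hs1 : 1 ≤ s := by nlinarith
  have hW : Wr L9 = trap s := (Wr_subset_trap s hs hs0).antisymm (trap_subset_Wr s hs hs1)
  apply Set.Subset.antisymm
  · rw [hW]
    intro z hz
    obtain ⟨w, hw0, hw1, hwz⟩ := trap_comb s hs1 z hz
    rw [← hwz]
    have h1 : ∀ k, ew s k ∈ spectrum ℂ (Qᴴ * L9.map (Int.cast : ℤ → ℂ) * Q) := fun k =>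
      mem_spectrum (by norm_num) hQ L9 (ev s k) (ew s k) (ev_sum s k) (ev_ne s k) (ev_eig s hs k)
    have h2 : (∑ k, (w k : ℂ) * ew s k) = ∑ k, w k • ew s k := by
      refine Finset.sum_congr rfl fun k _ => ?_
      rw [Complex.real_smul]
    rw [h2]
    exact (convex_convexHull ℝ _).sum_mem (fun k _ => hw0 k) hw1
      (fun k _ => subset_convexHull ℝ _ (h1 k))
  · apply convexHull_min (spectrum_subset hQ L9)
    rw [hW]
    exact trap_convex s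

/-- The extreme values of the real form are `4` and `5`. -/
theorem extreme9 : IsLeast (realValues L9) 4 ∧ IsGreatest (realValues L9) 5 := by
  have h2 : (Real.sqrt 2)⁻¹ ^ 2 = 1 / 2 := by
    rw [inv_pow, Real.sq_sqrt (by norm_num)]; norm_num
  have hval : ∀ x : Fin 9 → ℝ, x ⬝ᵥ (L9.map (Int.cast : ℤ → ℝ) *ᵥ x) =
      ∑ i, ∑ j, (L9 i j : ℝ) * (x i * x j) := by
    intro x
    rw [dotProduct]
    refine Finset.sum_congr rfl fun i _ => ?_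
    rw [mulVec, dotProduct, Finset.mul_sum]
    refine Finset.sum_congr rfl fun j _ => ?_
    rw [Matrix.map_apply]
    ring
  refine ⟨⟨?_, ?_⟩, ⟨?_, ?_⟩⟩
  · refine ⟨![(Real.sqrt 2)⁻¹, -(Real.sqrt 2)⁻¹, 0, 0, 0, 0, 0, 0, 0], ?_, ?_, ?_⟩
    · simp [Fin.sum_univ_succ]
    · rw [nrm]
      simp [h2]
      norm_num
    · rw [hval, bil]
      simp
      nlinarith [h2]
  · rintro t ⟨x, hx0, hx1, rfl⟩
    rw [hval]
    have := low x hx0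
    rw [hx1] at this
    linarith
  · refine ⟨![0, 0, 0, 0, (Real.sqrt 2)⁻¹, -(Real.sqrt 2)⁻¹, 0, 0, 0], ?_, ?_, ?_⟩
    · simp [Fin.sum_univ_succ]
    · rw [nrm]
      simp [h2]
      norm_num
    · rw [hval, bil]
      simp
      nlinarith [h2]
  · rintro t ⟨x, hx0, hx1, rfl⟩
    rw [hval]
    have := upp x hx0
    rw [hx1] at this
    linarith

end Pool.Agent.Q105.Poly
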