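import Mathlib

/-!
# Graphs whose adjacency form has spread less than two on the zero-sum vectors
-/

namespace Pool.Agent.Q105.Poly

open Finset

variable {n : ℕ}

/-- The adjacency form of a graph. -/
def gq (G : SimpleGraph (Fin n)) [DecidableRel G.Adj] (x y : Fin n → ℝ) : ℝ :=
  ∑ i, ∑ j, (if G.Adj i j then x i * y j else 0)

/-- The adjacency form has spread less than two on the zero-sum vectors. -/
def Small (G : SimpleGraph (Fin n)) [DecidableRel G.Adj] : Prop :=
  ∃ lo hi : ℝ, hi - lo < 2 ∧ ∀ x : Fin n → ℝ, ∑ i, x i = 0 →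
    lo * ∑ i, x i ^ 2 ≤ gq G x x ∧ gq G x x ≤ hi * ∑ i, x i ^ 2

theorem gq_compl (G : SimpleGraph (Fin n)) [DecidableRel G.Adj] (x : Fin n → ℝ)
    (hx : ∑ i, x i = 0) : gq Gᶜ x x = -∑ i, x i ^ 2 - gq G x x := by
  have h1 : gq Gᶜ x x + gq G x x + ∑ i, x i ^ 2 = ∑ i, ∑ j, x i * x j := by
    rw [gq, gq, ← Finset.sum_add_distrib, ← Finset.sum_add_distrib]
    refine Finset.sum_congr rfl fun i _ => ?_
    rw [← Finset.sum_add_distrib]
    have e : ∀ j, x i * x j = ((if Gᶜ.Adj i j then x i * x j else 0) +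
        (if G.Adj i j then x i * x j else 0)) + (if i = j then x i * x j else 0) := by
      intro j
      by_cases hij : i = j
      · subst hij
        rw [if_neg (SimpleGraph.irrefl _), if_neg (SimpleGraph.irrefl _), if_pos rfl]
        ring
      · by_cases h : G.Adj i j
        · rw [if_neg (fun hc => hc.2 h), if_pos h, if_neg hij]
          ring
        · rw [if_pos ⟨hij, h⟩, if_neg h, if_neg hij]
          ring
    have e2 : ∑ j, x i * x j = (∑ j, (if Gᶜ.Adj i j then x i * x j else 0) +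
        ∑ j, (if G.Adj i j then x i * x j else 0)) + ∑ j, (if i = j then x i * x j else 0) := by
      rw [← Finset.sum_add_distrib, ← Finset.sum_add_distrib]
      exact Finset.sum_congr rfl (fun j _ => e j)
    rw [Finset.sum_ite_eq] at e2
    rw [e2, ← Finset.sum_add_distrib]
    simp only [Finset.mem_univ, if_true]
    ring
  have h2 : ∑ i, ∑ j, x i * x j = 0 := by
    refine Finset.sum_eq_zero fun i _ => ?_
    rw [← Finset.mul_sum, hx, mul_zero]
  linarith

theorem Small.compl {G : SimpleGraph (Fin n)} [DecidableRel G.Adj] (h : Small G) : Small Gᶜ := by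
  obtain ⟨lo, hi, h1, h2⟩ := h
  refine ⟨-1 - hi, -1 - lo, by linarith, fun x hx => ?_⟩
  rw [gq_compl G x hx]
  obtain ⟨h3, h4⟩ := h2 x hx
  constructor <;> nlinarith

theorem gq_symm (G : SimpleGraph (Fin n)) [DecidableRel G.Adj] (x y : Fin n → ℝ) :
    gq G x y = gq G y x := by
  rw [gq, gq, Finset.sum_comm]
  refine Finset.sum_congr rfl fun i _ => Finset.sum_congr rfl fun j _ => ?_
  by_cases h : G.Adj j i
  · rw [if_pos h, if_pos h.symm]; ring
  · rw [if_neg h, if_neg (fun h' => h h'.symm)]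

theorem gq_lin (G : SimpleGraph (Fin n)) [DecidableRel G.Adj] (x y : Fin n → ℝ) (s t : ℝ) :
    gq G (fun i => s * x i + t * y i) (fun i => s * x i + t * y i) =
      s ^ 2 * gq G x x + 2 * s * t * gq G x y + t ^ 2 * gq G y y := by
  have h : 2 * s * t * gq G x y = s * t * gq G x y + s * t * gq G y x := by
    rw [gq_symm G y x]; ring
  rw [h, gq, gq, gq, gq, gq, Finset.mul_sum, Finset.mul_sum, Finset.mul_sum, Finset.mul_sum,
    ← Finset.sum_add_distrib, ← Finset.sum_add_distrib, ← Finset.sum_add_distrib]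
  refine Finset.sum_congr rfl fun i _ => ?_
  rw [Finset.mul_sum, Finset.mul_sum, Finset.mul_sum, Finset.mul_sum,
    ← Finset.sum_add_distrib, ← Finset.sum_add_distrib, ← Finset.sum_add_distrib]
  refine Finset.sum_congr rfl fun j _ => ?_
  split_ifs <;> ring

/-- Two-dimensional compressions. -/
theorem two_dim {P Q R U W lo hi : ℝ} (hU : 0 < U) (hW : 0 < W) (hd : hi - lo < 2)
    (h1 : ∀ s t : ℝ, lo * (s ^ 2 * U + t ^ 2 * W) ≤ s ^ 2 * P + 2 * s * t * R + t ^ 2 * Q)
    (h2 : ∀ s t : ℝ, s ^ 2 * P + 2 * s * t * R + t ^ 2 * Q ≤ hi * (s ^ 2 * U + t ^ 2 * W)) :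
    (P * W - Q * U) ^ 2 + 4 * R ^ 2 * U * W < 4 * U ^ 2 * W ^ 2 := by
  have d1 := discrim_le_zero (a := P - lo * U) (b := 2 * R) (c := Q - lo * W) (fun s => by
    have := h1 s 1
    nlinarith)
  have d2 := discrim_le_zero (a := hi * U - P) (b := -2 * R) (c := hi * W - Q) (fun s => by
    have := h2 s 1
    nlinarith)
  rw [discrim] at d1 d2
  have a1 := h1 1 0
  have a2 := h1 0 1
  have b1 := h2 1 0
  have b2 := h2 0 1
  set p : ℝ := P / U with hp
  set q : ℝ := Q / W with hq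
  have hP : P = p * U := by rw [hp]; field_simp
  have hQ : Q = q * W := by rw [hq]; field_simp
  have hUW : 0 < U * W := mul_pos hU hW
  set r : ℝ := R ^ 2 / (U * W) with hr
  have hR : R ^ 2 = r * (U * W) := by rw [hr]; field_simp
  rw [hP] at a1 b1 d1 d2
  rw [hQ] at a2 b2 d1 d2
  have p1 : lo ≤ p := by
    by_contra h
    push Not at h
    nlinarith [mul_pos (sub_pos.2 h) hU]
  have p2 : p ≤ hi := by
    by_contra h
    push Not at h
    nlinarith [mul_pos (sub_pos.2 h) hU]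
  have q1 : lo ≤ q := by
    by_contra h
    push Not at h
    nlinarith [mul_pos (sub_pos.2 h) hW]
  have q2 : q ≤ hi := by
    by_contra h
    push Not at h
    nlinarith [mul_pos (sub_pos.2 h) hW]
  have r1 : r ≤ (p - lo) * (q - lo) := by
    by_contra h
    push Not at h
    nlinarith [mul_pos (sub_pos.2 h) hUW]
  have r2 : r ≤ (hi - p) * (hi - q) := by
    by_contra h
    push Not at h
    nlinarith [mul_pos (sub_pos.2 h) hUW]
  have hd0 : 0 ≤ hi - lo := by linarith
  have key : (p - q) ^ 2 + 4 * r ≤ (hi - lo) ^ 2 := by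
    rcases le_total (p + q) (hi + lo) with h | h
    · have : (p - q) ^ 2 + 4 * ((p - lo) * (q - lo)) = (p + q - 2 * lo) ^ 2 := by ring
      have h3 : (p + q - 2 * lo) ^ 2 ≤ (hi - lo) ^ 2 := by
        apply pow_le_pow_left₀ (by linarith)
        linarith
      linarith
    · have : (p - q) ^ 2 + 4 * ((hi - p) * (hi - q)) = (2 * hi - p - q) ^ 2 := by ring
      have h3 : (2 * hi - p - q) ^ 2 ≤ (hi - lo) ^ 2 := by
        apply pow_le_pow_left₀ (by linarith)
        linarith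
      linarith
  have key2 : (p - q) ^ 2 + 4 * r < 4 := by
    have : (hi - lo) ^ 2 < 2 ^ 2 := pow_lt_pow_left₀ hd hd0 two_ne_zero
    linarith
  have e : (P * W - Q * U) ^ 2 + 4 * R ^ 2 * U * W =
      (U * W) ^ 2 * ((p - q) ^ 2 + 4 * r) := by
    rw [hP, hQ, hR]; ring
  rw [e]
  have : (U * W) ^ 2 * ((p - q) ^ 2 + 4 * r) < (U * W) ^ 2 * 4 :=
    mul_lt_mul_of_pos_left key2 (by positivity)
  linarith

/-- Integer bilinear form of a zero-one matrix. -/
def bf {k : ℕ} (g : Fin k → Fin k → Bool) (u w : Fin k → ℤ) : ℤ :=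
  ∑ i, ∑ j, (if g i j then u i * w j else 0)

/-- Extension of a vector along an injection. -/
noncomputable def ext {k : ℕ} (φ : Fin k → Fin n) (u : Fin k → ℤ) (a : Fin n) : ℝ :=
  ∑ i, (if φ i = a then (u i : ℝ) else 0)

theorem sum_ext_mul {k : ℕ} (φ : Fin k → Fin n) (u : Fin k → ℤ) (f : Fin n → ℝ) :
    ∑ a, ext φ u a * f a = ∑ i, (u i : ℝ) * f (φ i) := by
  simp only [ext, Finset.sum_mul]
  rw [Finset.sum_comm]
  refine Finset.sum_congr rfl fun i _ => ?_
  simp only [ite_mul, zero_mul]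
  rw [Finset.sum_ite_eq]
  simp

theorem ext_apply {k : ℕ} {φ : Fin k → Fin n} (hφ : Function.Injective φ) (u : Fin k → ℤ)
    (i : Fin k) : ext φ u (φ i) = u i := by
  rw [ext, Finset.sum_eq_single i]
  · rw [if_pos rfl]
  · intro j _ hj
    rw [if_neg (fun h => hj (hφ h))]
  · intro h
    exact absurd (mem_univ i) h

theorem gq_ext {k : ℕ} (G : SimpleGraph (Fin n)) [DecidableRel G.Adj] {φ : Fin k → Fin n}
    (g : Fin k → Fin k → Bool)
    (hg : ∀ i j, g i j = true ↔ G.Adj (φ i) (φ j)) (u w : Fin k → ℤ) :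
    gq G (ext φ u) (ext φ w) = (bf g u w : ℝ) := by
  have h1 : gq G (ext φ u) (ext φ w) =
      ∑ a, ext φ u a * (∑ b, ext φ w b * (if G.Adj a b then 1 else 0)) := by
    rw [gq]
    refine Finset.sum_congr rfl fun a _ => ?_
    rw [Finset.mul_sum]
    refine Finset.sum_congr rfl fun b _ => ?_
    split_ifs <;> ring
  rw [h1, sum_ext_mul, bf]
  push_cast
  refine Finset.sum_congr rfl fun i _ => ?_
  rw [sum_ext_mul, Finset.mul_sum]
  refine Finset.sum_congr rfl fun j _ => ?_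
  by_cases h : G.Adj (φ i) (φ j)
  · rw [if_pos h, if_pos ((hg i j).2 h)]
    ring
  · rw [if_neg h, if_neg (fun h' => h ((hg i j).1 h'))]
    ring

/-- The certificate principle. -/
theorem Small.no_cert {G : SimpleGraph (Fin n)} [DecidableRel G.Adj] (hG : Small G) {k : ℕ}
    {φ : Fin k → Fin n} (hφ : Function.Injective φ) (g : Fin k → Fin k → Bool)
    (hg : ∀ i j, g i j = true ↔ G.Adj (φ i) (φ j)) (u w : Fin k → ℤ)
    (hu : ∑ i, u i = 0) (hw : ∑ i, w i = 0) (huw : ∑ i, u i * w i = 0)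
    (hU : 0 < ∑ i, u i * u i) (hW : 0 < ∑ i, w i * w i)
    (h : 4 * (∑ i, u i * u i) ^ 2 * (∑ i, w i * w i) ^ 2 ≤
      (bf g u u * (∑ i, w i * w i) - bf g w w * (∑ i, u i * u i)) ^ 2 +
        4 * (bf g u w) ^ 2 * (∑ i, u i * u i) * (∑ i, w i * w i)) : False := by
  obtain ⟨lo, hi, hd, hb⟩ := hG
  have hz : ∀ u : Fin k → ℤ, ∑ i, u i = 0 → ∑ a, ext φ u a = 0 := by
    intro u hu
    have := sum_ext_mul φ u (fun _ => 1)
    simp only [mul_one] at this
    rw [this]
    exact_mod_cast hu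
  have hin : ∀ u w : Fin k → ℤ, ∑ a, ext φ u a * ext φ w a = ((∑ i, u i * w i : ℤ) : ℝ) := by
    intro u w
    rw [sum_ext_mul]
    push_cast
    refine Finset.sum_congr rfl fun i _ => ?_
    rw [ext_apply hφ]
  have hnorm : ∀ s t : ℝ, ∑ a, (s * ext φ u a + t * ext φ w a) ^ 2 =
      s ^ 2 * ((∑ i, u i * u i : ℤ) : ℝ) + t ^ 2 * ((∑ i, w i * w i : ℤ) : ℝ) := by
    intro s t
    have e : ∑ a, (s * ext φ u a + t * ext φ w a) ^ 2 =
        s ^ 2 * ∑ a, ext φ u a * ext φ u a + 2 * s * t * ∑ a, ext φ u a * ext φ w a +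
          t ^ 2 * ∑ a, ext φ w a * ext φ w a := by
      rw [Finset.mul_sum, Finset.mul_sum, Finset.mul_sum, ← Finset.sum_add_distrib,
        ← Finset.sum_add_distrib]
      refine Finset.sum_congr rfl fun a _ => ?_
      ring
    rw [e, hin, hin, hin, huw]
    push_cast
    ring
  have hsum : ∀ s t : ℝ, ∑ a, (s * ext φ u a + t * ext φ w a) = 0 := by
    intro s t
    rw [Finset.sum_add_distrib, ← Finset.mul_sum, ← Finset.mul_sum, hz u hu, hz w hw]
    ring
  have hUr : (0 : ℝ) < ((∑ i, u i * u i : ℤ) : ℝ) := by exact_mod_cast hU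
  have hWr : (0 : ℝ) < ((∑ i, w i * w i : ℤ) : ℝ) := by exact_mod_cast hW
  have h3 := two_dim (P := (bf g u u : ℝ)) (Q := (bf g w w : ℝ)) (R := (bf g u w : ℝ)) hUr hWr hd
    (fun s t => by
      have := (hb _ (hsum s t)).1
      rw [hnorm, gq_lin, gq_ext G g hg, gq_ext G g hg, gq_ext G g hg] at this
      exact this)
    (fun s t => by
      have := (hb _ (hsum s t)).2
      rw [hnorm, gq_lin, gq_ext G g hg, gq_ext G g hg, gq_ext G g hg] at this
      exact this)
  have h4 : ((4 * (∑ i, u i * u i) ^ 2 * (∑ i, w i * w i) ^ 2 : ℤ) : ℝ) ≤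
      (((bf g u u * (∑ i, w i * w i) - bf g w w * (∑ i, u i * u i)) ^ 2 +
        4 * (bf g u w) ^ 2 * (∑ i, u i * u i) * (∑ i, w i * w i) : ℤ) : ℝ) := by
    exact_mod_cast h
  rw [Int.cast_mul, Int.cast_mul, Int.cast_pow, Int.cast_pow, Int.cast_add, Int.cast_pow,
    Int.cast_sub, Int.cast_mul, Int.cast_mul, Int.cast_mul, Int.cast_mul, Int.cast_mul,
    Int.cast_pow] at h4
  have e4 : ((4 : ℤ) : ℝ) = 4 := by norm_num
  rw [e4] at h4
  linarith

end Pool.Agent.Q105.Poly
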